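import Pool.Agent.X33.Z4722.C00

set_option autoImplicit false
set_option maxRecDepth 100000

/-! Certificates for `(k + 1) ^ φ(4722 - k) + k` with `228 ≤ k < 380`. -/

namespace Pool.Agent.X33.Z4722

theorem f231 : fk 4722 231 46 = true := by decide +kernel
theorem f246 : fk 4722 246 24 = true := by decide +kernel
theorem f253 : fk 4722 253 68 = true := by decide +kernel
theorem f258 : fk 4722 258 23 = true := by decide +kernel
theorem f279 : fk 4722 279 47 = true := by decide +kernel
theorem f281 : fk 4722 281 71 = true := by decide +kernel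
theorem f283 : fk 4722 283 68 = true := by decide +kernel
theorem f289 : fk 4722 289 58 = true := by decide +kernel
theorem f301 : fk 4722 301 72 = true := by decide +kernel
theorem f302 : fk 4722 302 25 = true := by decide +kernel
theorem f303 : fk 4722 303 48 = true := by decide +kernel
theorem f309 : fk 4722 309 48 = true := by decide +kernel
theorem f318 : fk 4722 318 24 = true := by decide +kernel
theorem f319 : fk 4722 319 57 = true := by decide +kernel
theorem f321 : fk 4722 321 48 = true := by decide +kernel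
theorem f323 : fk 4722 323 70 = true := by decide +kernel
theorem f333 : fk 4722 333 36 = true := by decide +kernel
theorem f344 : fk 4722 344 33 = true := by decide +kernel
theorem f351 : fk 4722 351 46 = true := by decide +kernel
theorem f356 : fk 4722 356 35 = true := by decide +kernel
theorem f368 : fk 4722 368 31 = true := by decide +kernel
theorem f372 : fk 4722 372 19 = true := by decide +kernel
theorem f379 : fk 4722 379 71 = true := by decide +kernel

theorem fer_228 : ∀ k ∈ [231, 246, 253, 258, 279, 281, 283, 289, 301, 302, 303, 309, 318, 319, 321, 323, 333, 344, 351, 356, 368, 372, 379], ¬ (num 4722 k).Prime :=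
  cons_ok (fk_spec _ _ _ f231) <|
  cons_ok (fk_spec _ _ _ f246) <|
  cons_ok (fk_spec _ _ _ f253) <|
  cons_ok (fk_spec _ _ _ f258) <|
  cons_ok (fk_spec _ _ _ f279) <|
  cons_ok (fk_spec _ _ _ f281) <|
  cons_ok (fk_spec _ _ _ f283) <|
  cons_ok (fk_spec _ _ _ f289) <|
  cons_ok (fk_spec _ _ _ f301) <|
  cons_ok (fk_spec _ _ _ f302) <|
  cons_ok (fk_spec _ _ _ f303) <|
  cons_ok (fk_spec _ _ _ f309) <|
  cons_ok (fk_spec _ _ _ f318) <|
  cons_ok (fk_spec _ _ _ f319) <|
  cons_ok (fk_spec _ _ _ f321) <|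
  cons_ok (fk_spec _ _ _ f323) <|
  cons_ok (fk_spec _ _ _ f333) <|
  cons_ok (fk_spec _ _ _ f344) <|
  cons_ok (fk_spec _ _ _ f351) <|
  cons_ok (fk_spec _ _ _ f356) <|
  cons_ok (fk_spec _ _ _ f368) <|
  cons_ok (fk_spec _ _ _ f372) <|
  cons_ok (fk_spec _ _ _ f379) <|
  nil_ok 4722

theorem rng_228 : ∀ k, 228 ≤ k → k < 380 → ¬ (num 4722 k).Prime :=
  range_of 4722 228 380 [41, 19079, 12487, 0, 79, 11, 463, 1653923, 5, 11, 127, 48523, 595817, 7, 13931, 19, 31, 3041, 0, 23, 7, 15859, 41, 11799869, 911, 0, 3313, 19, 2113, 251, 0, 11, 631, 443, 7669301, 25050241, 41, 139, 739799, 29, 317, 59, 1213, 5, 3067, 17, 29, 89, 293, 7229, 8659513, 0, 547, 0, 88801, 0, 4793, 991, 349211, 19, 538049, 0, 43, 22027, 49391, 11, 79, 79, 13, 7, 397, 11, 487, 0, 0, 0, 4553677, 3463, 1405367, 5243597, 7337269, 0, 1493, 7, 239, 179, 5791, 211, 5, 37, 0, 0, 974009, 0, 13, 0, 10193, 7, 1399, 724777, 29, 4799, 1867, 5, 11, 0, 59, 13, 14557, 11, 1481, 10259, 6949, 3187, 23, 69827, 0, 5598833, 61, 4931, 816971, 257, 19,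 0, 29, 7, 11, 16529, 0, 61, 17, 3391, 1303, 1753, 30839, 1578361, 279731, 127, 43, 641, 0, 16025327, 1336637, 43, 0, 2090461, 2311, 53, 293, 67, 2741, 0] _ (by decide +kernel) (by decide +kernel) fer_228 (by decide +kernel)

end Pool.Agent.X33.Z4722
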