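import Pool.Agent.X33.Z4722.C01

set_option autoImplicit false
set_option maxRecDepth 100000

/-! Certificates for `(k + 1) ^ φ(4722 - k) + k` with `380 ≤ k < 538`. -/

namespace Pool.Agent.X33.Z4722

theorem f382 : fk 4722 382 25 = true := by decide +kernel
theorem f386 : fk 4722 386 37 = true := by decide +kernel
theorem f389 : fk 4722 389 63 = true := by decide +kernel
theorem f405 : fk 4722 405 49 = true := by decide +kernel
theorem f412 : fk 4722 412 30 = true := by decide +kernel
theorem f415 : fk 4722 415 71 = true := by decide +kernel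
theorem f417 : fk 4722 417 33 = true := by decide +kernel
theorem f420 : fk 4722 420 25 = true := by decide +kernel
theorem f424 : fk 4722 424 32 = true := by decide +kernel
theorem f428 : fk 4722 428 35 = true := by decide +kernel
theorem f445 : fk 4722 445 57 = true := by decide +kernel
theorem f455 : fk 4722 455 70 = true := by decide +kernel
theorem f458 : fk 4722 458 34 = true := by decide +kernel
theorem f467 : fk 4722 467 55 = true := by decide +kernel
theorem f470 : fk 4722 470 37 = true := by decide +kernel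
theorem f471 : fk 4722 471 45 = true := by decide +kernel
theorem f494 : fk 4722 494 32 = true := by decide +kernel
theorem f496 : fk 4722 496 37 = true := by decide +kernel
theorem f501 : fk 4722 501 42 = true := by decide +kernel
theorem f508 : fk 4722 508 31 = true := by decide +kernel
theorem f509 : fk 4722 509 68 = true := by decide +kernel
theorem f513 : fk 4722 513 47 = true := by decide +kernel
theorem f518 : fk 4722 518 37 = true := by decide +kernel
theorem f523 : fk 4722 523 61 = true := by decide +kernel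
theorem f528 : fk 4722 528 25 = true := by decide +kernel
theorem f531 : fk 4722 531 45 = true := by decide +kernel
theorem f532 : fk 4722 532 30 = true := by decide +kernel
theorem f537 : fk 4722 537 39 = true := by decide +kernel

theorem fer_380 : ∀ k ∈ [382, 386, 389, 405, 412, 415, 417, 420, 424, 428, 445, 455, 458, 467, 470, 471, 494, 496, 501, 508, 509, 513, 518, 523, 528, 531, 532, 537], ¬ (num 4722 k).Prime :=
  cons_ok (fk_spec _ _ _ f382) <|
  cons_ok (fk_spec _ _ _ f386) <|
  cons_ok (fk_spec _ _ _ f389) <|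
  cons_ok (fk_spec _ _ _ f405) <|
  cons_ok (fk_spec _ _ _ f412) <|
  cons_ok (fk_spec _ _ _ f415) <|
  cons_ok (fk_spec _ _ _ f417) <|
  cons_ok (fk_spec _ _ _ f420) <|
  cons_ok (fk_spec _ _ _ f424) <|
  cons_ok (fk_spec _ _ _ f428) <|
  cons_ok (fk_spec _ _ _ f445) <|
  cons_ok (fk_spec _ _ _ f455) <|
  cons_ok (fk_spec _ _ _ f458) <|
  cons_ok (fk_spec _ _ _ f467) <|
  cons_ok (fk_spec _ _ _ f470) <|
  cons_ok (fk_spec _ _ _ f471) <|
  cons_ok (fk_spec _ _ _ f494) <|
  cons_ok (fk_spec _ _ _ f496) <|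
  cons_ok (fk_spec _ _ _ f501) <|
  cons_ok (fk_spec _ _ _ f508) <|
  cons_ok (fk_spec _ _ _ f509) <|
  cons_ok (fk_spec _ _ _ f513) <|
  cons_ok (fk_spec _ _ _ f518) <|
  cons_ok (fk_spec _ _ _ f523) <|
  cons_ok (fk_spec _ _ _ f528) <|
  cons_ok (fk_spec _ _ _ f531) <|
  cons_ok (fk_spec _ _ _ f532) <|
  cons_ok (fk_spec _ _ _ f537) <|
  nil_ok 4722

theorem rng_380 : ∀ k, 380 ≤ k → k < 538 → ¬ (num 4722 k).Prime :=
  range_of 4722 380 538 [11, 37, 0, 43, 227, 237689, 0, 13, 7, 0, 29, 977927, 233, 952921, 71, 89, 331, 569, 727, 47, 4649, 71, 11, 409, 5857, 0, 47, 881, 571, 17, 101, 23, 0, 313981, 6277, 0, 7, 0, 61, 11287, 0, 101, 81097, 42473, 0, 2202913, 101, 2689, 0, 101503, 21499, 11, 439, 53, 37, 491, 5, 7, 461, 19, 31, 20149, 1999, 26717, 139, 0, 241, 23, 653, 103, 83, 5, 79, 6449, 491, 0, 461, 151429, 0, 11543767, 499, 47, 1433, 4157, 109, 26203, 79, 0, 19, 3637, 0, 0, 7, 509, 41, 43, 269, 25307, 127, 11, 74719, 42709, 883, 202327, 181, 1617437, 7, 19, 53, 4399987, 397, 5, 54907, 7, 0, 193,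 0, 388697, 29, 800441, 7, 0, 19, 11, 5202479, 4791911, 19, 547, 0, 0, 311, 5, 181537, 0, 6551, 29, 1153, 307, 0, 281, 114451, 19, 67, 0, 1291, 179, 107, 29, 0, 130829, 13, 0, 0, 31, 11, 29, 5387, 0] _ (by decide +kernel) (by decide +kernel) fer_380 (by decide +kernel)

end Pool.Agent.X33.Z4722
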