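import Pool.Agent.X33.Z4722.C02

set_option autoImplicit false
set_option maxRecDepth 100000

/-! Certificates for `(k + 1) ^ φ(4722 - k) + k` with `538 ≤ k < 668`. -/

namespace Pool.Agent.X33.Z4722

theorem f540 : fk 4722 540 23 = true := by decide +kernel
theorem f548 : fk 4722 548 38 = true := by decide +kernel
theorem f549 : fk 4722 549 46 = true := by decide +kernel
theorem f552 : fk 4722 552 20 = true := by decide +kernel
theorem f557 : fk 4722 557 48 = true := by decide +kernel
theorem f559 : fk 4722 559 71 = true := by decide +kernel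
theorem f560 : fk 4722 560 38 = true := by decide +kernel
theorem f570 : fk 4722 570 25 = true := by decide +kernel
theorem f576 : fk 4722 576 25 = true := by decide +kernel
theorem f577 : fk 4722 577 60 = true := by decide +kernel
theorem f583 : fk 4722 583 75 = true := by decide +kernel
theorem f586 : fk 4722 586 34 = true := by decide +kernel
theorem f591 : fk 4722 591 47 = true := by decide +kernel
theorem f592 : fk 4722 592 26 = true := by decide +kernel
theorem f607 : fk 4722 607 60 = true := by decide +kernel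
theorem f614 : fk 4722 614 34 = true := by decide +kernel
theorem f620 : fk 4722 620 32 = true := by decide +kernel
theorem f625 : fk 4722 625 70 = true := by decide +kernel
theorem f628 : fk 4722 628 36 = true := by decide +kernel
theorem f643 : fk 4722 643 75 = true := by decide +kernel
theorem f644 : fk 4722 644 38 = true := by decide +kernel
theorem f652 : fk 4722 652 27 = true := by decide +kernel
theorem f658 : fk 4722 658 37 = true := by decide +kernel
theorem f661 : fk 4722 661 72 = true := by decide +kernel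
theorem f667 : fk 4722 667 60 = true := by decide +kernel

theorem fer_538 : ∀ k ∈ [540, 548, 549, 552, 557, 559, 560, 570, 576, 577, 583, 586, 591, 592, 607, 614, 620, 625, 628, 643, 644, 652, 658, 661, 667], ¬ (num 4722 k).Prime :=
  cons_ok (fk_spec _ _ _ f540) <|
  cons_ok (fk_spec _ _ _ f548) <|
  cons_ok (fk_spec _ _ _ f549) <|
  cons_ok (fk_spec _ _ _ f552) <|
  cons_ok (fk_spec _ _ _ f557) <|
  cons_ok (fk_spec _ _ _ f559) <|
  cons_ok (fk_spec _ _ _ f560) <|
  cons_ok (fk_spec _ _ _ f570) <|
  cons_ok (fk_spec _ _ _ f576) <|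
  cons_ok (fk_spec _ _ _ f577) <|
  cons_ok (fk_spec _ _ _ f583) <|
  cons_ok (fk_spec _ _ _ f586) <|
  cons_ok (fk_spec _ _ _ f591) <|
  cons_ok (fk_spec _ _ _ f592) <|
  cons_ok (fk_spec _ _ _ f607) <|
  cons_ok (fk_spec _ _ _ f614) <|
  cons_ok (fk_spec _ _ _ f620) <|
  cons_ok (fk_spec _ _ _ f625) <|
  cons_ok (fk_spec _ _ _ f628) <|
  cons_ok (fk_spec _ _ _ f643) <|
  cons_ok (fk_spec _ _ _ f644) <|
  cons_ok (fk_spec _ _ _ f652) <|
  cons_ok (fk_spec _ _ _ f658) <|
  cons_ok (fk_spec _ _ _ f661) <|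
  cons_ok (fk_spec _ _ _ f667) <|
  nil_ok 4722

theorem rng_538 : ∀ k, 538 ≤ k → k < 668 → ¬ (num 4722 k).Prime :=
  range_of 4722 538 668 [1109, 199, 0, 11, 80387, 47, 23, 347, 11, 887, 0, 0, 101, 1103, 0, 27529, 304021, 15643, 5, 0, 5715071, 0, 0, 157, 709, 278651, 83, 10169, 50741, 14628937, 2672303, 13337, 0, 10321, 2584279, 29, 331183, 1231, 0, 0, 89, 199, 23, 2185871, 19, 0, 7, 11, 0, 691, 67, 11, 11, 0, 0, 107, 839, 37, 5, 61, 1801, 4809881, 543971, 19, 9133, 19, 19613527, 7, 239333, 0, 4127, 109, 101, 5, 6373, 17, 0, 29, 17, 418207, 23535779, 521, 0, 1877, 12343, 18439, 727, 0, 379, 373, 0, 11, 59, 5, 2633, 83, 1301, 2273, 179, 359, 1621, 107, 11, 43, 29, 0, 0, 1367, 35975431, 43, 307, 73, 4287743, 11, 0, 2890267, 1847, 23, 2080223, 52567, 0, 28657, 11939, 0, 59, 16433, 17, 5443, 1303, 0] _ (by decide +kernel) (by decide +kernel) fer_538 (by decide +kernel)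

end Pool.Agent.X33.Z4722
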