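import Pool.Agent.X33.Fer

set_option autoImplicit false
set_option maxRecDepth 100000

/-! Certificates for `(k + 1) ^ φ(4722 - k) + k` with `668 ≤ k < 791`. -/

namespace Pool.Agent.X33.Z4722

theorem f670 : fk 4722 670 38 = true := by decide +kernel
theorem f675 : fk 4722 675 47 = true := by decide +kernel
theorem f679 : fk 4722 679 69 = true := by decide +kernel
theorem f688 : fk 4722 688 38 = true := by decide +kernel
theorem f690 : fk 4722 690 22 = true := by decide +kernel
theorem f694 : fk 4722 694 35 = true := by decide +kernel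
theorem f704 : fk 4722 704 32 = true := by decide +kernel
theorem f715 : fk 4722 715 75 = true := by decide +kernel
theorem f724 : fk 4722 724 38 = true := by decide +kernel
theorem f725 : fk 4722 725 64 = true := by decide +kernel
theorem f741 : fk 4722 741 50 = true := by decide +kernel
theorem f745 : fk 4722 745 72 = true := by decide +kernel
theorem f749 : fk 4722 749 72 = true := by decide +kernel
theorem f752 : fk 4722 752 30 = true := by decide +kernel
theorem f753 : fk 4722 753 43 = true := by decide +kernel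
theorem f758 : fk 4722 758 38 = true := by decide +kernel
theorem f764 : fk 4722 764 38 = true := by decide +kernel
theorem f766 : fk 4722 766 35 = true := by decide +kernel
theorem f779 : fk 4722 779 74 = true := by decide +kernel
theorem f781 : fk 4722 781 64 = true := by decide +kernel
theorem f786 : fk 4722 786 25 = true := by decide +kernel
theorem f790 : fk 4722 790 37 = true := by decide +kernel

theorem fer_668 : ∀ k ∈ [670, 675, 679, 688, 690, 694, 704, 715, 724, 725, 741, 745, 749, 752, 753, 758, 764, 766, 779, 781, 786, 790], ¬ (num 4722 k).Prime :=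
  cons_ok (fk_spec _ _ _ f670) <|
  cons_ok (fk_spec _ _ _ f675) <|
  cons_ok (fk_spec _ _ _ f679) <|
  cons_ok (fk_spec _ _ _ f688) <|
  cons_ok (fk_spec _ _ _ f690) <|
  cons_ok (fk_spec _ _ _ f694) <|
  cons_ok (fk_spec _ _ _ f704) <|
  cons_ok (fk_spec _ _ _ f715) <|
  cons_ok (fk_spec _ _ _ f724) <|
  cons_ok (fk_spec _ _ _ f725) <|
  cons_ok (fk_spec _ _ _ f741) <|
  cons_ok (fk_spec _ _ _ f745) <|
  cons_ok (fk_spec _ _ _ f749) <|
  cons_ok (fk_spec _ _ _ f752) <|
  cons_ok (fk_spec _ _ _ f753) <|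
  cons_ok (fk_spec _ _ _ f758) <|
  cons_ok (fk_spec _ _ _ f764) <|
  cons_ok (fk_spec _ _ _ f766) <|
  cons_ok (fk_spec _ _ _ f779) <|
  cons_ok (fk_spec _ _ _ f781) <|
  cons_ok (fk_spec _ _ _ f786) <|
  cons_ok (fk_spec _ _ _ f790) <|
  nil_ok 4722

theorem rng_668 : ∀ k, 668 ≤ k → k < 791 → ¬ (num 4722 k).Prime :=
  range_of 4722 668 791 [7, 91753, 0, 5, 43, 13, 107, 0, 345089, 11, 11, 0, 23813, 13560089, 7, 347, 102229, 6841, 23, 19, 0, 6551, 0, 563, 97103, 1949, 0, 64153, 19, 3203, 61, 1097, 499, 17, 107, 7, 0, 29, 19, 769, 507079, 6193609, 23, 773, 13, 67, 107, 0, 5, 11, 109, 1380259, 41, 25943, 59, 7687, 0, 0, 53, 53, 31, 193, 107, 29, 53, 6353, 19, 499, 1151, 89, 7, 401, 59, 0, 769, 37, 354337, 0, 1489, 23, 941, 0, 48626219, 59, 0, 0, 1931, 13, 3119, 64301, 0, 1913, 223, 11, 59, 17053, 0, 131, 0, 11, 4441, 17, 23, 31, 19, 7, 131, 2549, 11, 6761, 14369, 0, 223, 0, 19, 48571, 293, 1567, 0, 51449, 409, 619159, 0] _ (by decide +kernel) (by decide +kernel) fer_668 (by decide +kernel)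

end Pool.Agent.X33.Z4722
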