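import Pool.Agent.X33.Z4722.C04

set_option autoImplicit false
set_option maxRecDepth 100000

/-! Certificates for `(k + 1) ^ φ(4722 - k) + k` with `791 ≤ k < 922`. -/

namespace Pool.Agent.X33.Z4722

theorem f796 : fk 4722 796 34 = true := by decide +kernel
theorem f805 : fk 4722 805 74 = true := by decide +kernel
theorem f808 : fk 4722 808 35 = true := by decide +kernel
theorem f810 : fk 4722 810 25 = true := by decide +kernel
theorem f813 : fk 4722 813 50 = true := by decide +kernel
theorem f819 : fk 4722 819 50 = true := by decide +kernel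
theorem f821 : fk 4722 821 72 = true := by decide +kernel
theorem f824 : fk 4722 824 37 = true := by decide +kernel
theorem f827 : fk 4722 827 55 = true := by decide +kernel
theorem f832 : fk 4722 832 30 = true := by decide +kernel
theorem f844 : fk 4722 844 32 = true := by decide +kernel
theorem f845 : fk 4722 845 74 = true := by decide +kernel
theorem f849 : fk 4722 849 50 = true := by decide +kernel
theorem f853 : fk 4722 853 72 = true := by decide +kernel
theorem f879 : fk 4722 879 42 = true := by decide +kernel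
theorem f893 : fk 4722 893 63 = true := by decide +kernel
theorem f895 : fk 4722 895 71 = true := by decide +kernel
theorem f916 : fk 4722 916 34 = true := by decide +kernel
theorem f917 : fk 4722 917 59 = true := by decide +kernel
theorem f921 : fk 4722 921 42 = true := by decide +kernel

theorem fer_791 : ∀ k ∈ [796, 805, 808, 810, 813, 819, 821, 824, 827, 832, 844, 845, 849, 853, 879, 893, 895, 916, 917, 921], ¬ (num 4722 k).Prime :=
  cons_ok (fk_spec _ _ _ f796) <|
  cons_ok (fk_spec _ _ _ f805) <|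
  cons_ok (fk_spec _ _ _ f808) <|
  cons_ok (fk_spec _ _ _ f810) <|
  cons_ok (fk_spec _ _ _ f813) <|
  cons_ok (fk_spec _ _ _ f819) <|
  cons_ok (fk_spec _ _ _ f821) <|
  cons_ok (fk_spec _ _ _ f824) <|
  cons_ok (fk_spec _ _ _ f827) <|
  cons_ok (fk_spec _ _ _ f832) <|
  cons_ok (fk_spec _ _ _ f844) <|
  cons_ok (fk_spec _ _ _ f845) <|
  cons_ok (fk_spec _ _ _ f849) <|
  cons_ok (fk_spec _ _ _ f853) <|
  cons_ok (fk_spec _ _ _ f879) <|
  cons_ok (fk_spec _ _ _ f893) <|
  cons_ok (fk_spec _ _ _ f895) <|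
  cons_ok (fk_spec _ _ _ f916) <|
  cons_ok (fk_spec _ _ _ f917) <|
  cons_ok (fk_spec _ _ _ f921) <|
  nil_ok 4722

theorem rng_791 : ∀ k, 791 ≤ k → k < 922 → ¬ (num 4722 k).Prime :=
  range_of 4722 791 922 [5, 7589, 23, 7, 47, 0, 1123, 113, 647, 56393, 19, 359, 251, 79, 0, 9001, 67, 0, 67, 0, 5, 53, 0, 149, 37, 29, 107, 179, 0, 13, 0, 1553, 131, 0, 43, 881, 0, 1093, 19, 509867, 11, 0, 11, 47, 359, 751, 953, 23, 73, 12443339, 1193, 761, 157, 0, 0, 13103, 29, 19, 0, 709, 17, 461, 0, 131, 563, 47917, 7, 14633, 7075853, 99793, 23, 390151, 59, 22853, 11, 140983, 85843, 13, 44621, 172399, 5, 229, 5791, 599, 2267, 113, 107, 37, 0, 3673, 13, 89, 80677, 301583, 17, 11, 11, 601, 31, 457, 7309, 7, 0, 13, 0, 97373, 83, 11, 137, 253853, 409, 61, 149, 23189, 17, 13982057, 53, 631, 2029, 241, 23, 191, 19421, 23, 3096623, 0, 0, 103, 11, 7, 0] _ (by decide +kernel) (by decide +kernel) fer_791 (by decide +kernel)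

end Pool.Agent.X33.Z4722
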