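import Pool.Agent.X33.Z4722.C05

set_option autoImplicit false
set_option maxRecDepth 100000

/-! Certificates for `(k + 1) ^ φ(4722 - k) + k` with `922 ≤ k < 1070`. -/

namespace Pool.Agent.X33.Z4722

theorem f923 : fk 4722 923 71 = true := by decide +kernel
theorem f924 : fk 4722 924 25 = true := by decide +kernel
theorem f949 : fk 4722 949 57 = true := by decide +kernel
theorem f953 : fk 4722 953 73 = true := by decide +kernel
theorem f960 : fk 4722 960 21 = true := by decide +kernel
theorem f997 : fk 4722 997 58 = true := by decide +kernel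
theorem f1003 : fk 4722 1003 73 = true := by decide +kernel
theorem f1010 : fk 4722 1010 35 = true := by decide +kernel
theorem f1017 : fk 4722 1017 34 = true := by decide +kernel
theorem f1025 : fk 4722 1025 73 = true := by decide +kernel
theorem f1030 : fk 4722 1030 33 = true := by decide +kernel
theorem f1033 : fk 4722 1033 57 = true := by decide +kernel
theorem f1034 : fk 4722 1034 36 = true := by decide +kernel
theorem f1038 : fk 4722 1038 24 = true := by decide +kernel
theorem f1039 : fk 4722 1039 70 = true := by decide +kernel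
theorem f1043 : fk 4722 1043 67 = true := by decide +kernel
theorem f1046 : fk 4722 1046 36 = true := by decide +kernel
theorem f1054 : fk 4722 1054 31 = true := by decide +kernel
theorem f1059 : fk 4722 1059 43 = true := by decide +kernel
theorem f1060 : fk 4722 1060 36 = true := by decide +kernel
theorem f1069 : fk 4722 1069 67 = true := by decide +kernel

theorem fer_922 : ∀ k ∈ [923, 924, 949, 953, 960, 997, 1003, 1010, 1017, 1025, 1030, 1033, 1034, 1038, 1039, 1043, 1046, 1054, 1059, 1060, 1069], ¬ (num 4722 k).Prime :=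
  cons_ok (fk_spec _ _ _ f923) <|
  cons_ok (fk_spec _ _ _ f924) <|
  cons_ok (fk_spec _ _ _ f949) <|
  cons_ok (fk_spec _ _ _ f953) <|
  cons_ok (fk_spec _ _ _ f960) <|
  cons_ok (fk_spec _ _ _ f997) <|
  cons_ok (fk_spec _ _ _ f1003) <|
  cons_ok (fk_spec _ _ _ f1010) <|
  cons_ok (fk_spec _ _ _ f1017) <|
  cons_ok (fk_spec _ _ _ f1025) <|
  cons_ok (fk_spec _ _ _ f1030) <|
  cons_ok (fk_spec _ _ _ f1033) <|
  cons_ok (fk_spec _ _ _ f1034) <|
  cons_ok (fk_spec _ _ _ f1038) <|
  cons_ok (fk_spec _ _ _ f1039) <|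
  cons_ok (fk_spec _ _ _ f1043) <|
  cons_ok (fk_spec _ _ _ f1046) <|
  cons_ok (fk_spec _ _ _ f1054) <|
  cons_ok (fk_spec _ _ _ f1059) <|
  cons_ok (fk_spec _ _ _ f1060) <|
  cons_ok (fk_spec _ _ _ f1069) <|
  nil_ok 4722

theorem rng_922 : ∀ k, 922 ≤ k → k < 1070 → ¬ (num 4722 k).Prime :=
  range_of 4722 922 1070 [227, 0, 0, 5281, 31, 19, 593, 101, 43, 46567757, 1901, 2251, 19, 1601, 17, 83, 5657, 494651, 857, 521, 11, 11, 9127, 31, 1795543, 337, 11, 0, 518831, 103, 11027, 0, 11, 7, 23827, 23, 1399, 13, 0, 10429, 163, 547, 6163, 53, 887, 201731, 811, 1291, 5009, 612407, 13, 211, 11, 89, 149, 19, 503, 61, 743, 11, 19, 12373, 1279, 23, 11, 11, 827, 37, 7, 733, 29, 35257, 23, 17, 13597, 0, 461, 251, 23, 487, 3061, 0, 23, 1871, 73, 572027, 137, 11, 0, 331, 467, 53503, 1663, 109, 83, 0, 197, 19, 99289, 17, 1723, 13627, 7753, 0, 37, 241169, 1117, 23, 0, 5, 6723641, 0, 0, 103, 76819, 25771, 0, 0, 11, 79, 11, 0, 181, 257, 0, 2381, 32993, 23, 29, 5, 11, 1429, 0, 199, 51713, 19, 4815337,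 0, 0, 30517, 10501, 1229, 1381, 991, 223, 239, 3011, 0] _ (by decide +kernel) (by decide +kernel) fer_922 (by decide +kernel)

end Pool.Agent.X33.Z4722
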