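import Pool.Agent.X33.Z4722.C06

set_option autoImplicit false
set_option maxRecDepth 100000

/-! Certificates for `(k + 1) ^ φ(4722 - k) + k` with `1070 ≤ k < 1149`. -/

namespace Pool.Agent.X33.Z4722

theorem f1070 : fk 4722 1070 33 = true := by decide +kernel
theorem f1073 : fk 4722 1073 70 = true := by decide +kernel
theorem f1081 : fk 4722 1081 65 = true := by decide +kernel
theorem f1087 : fk 4722 1087 58 = true := by decide +kernel
theorem f1094 : fk 4722 1094 36 = true := by decide +kernel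
theorem f1096 : fk 4722 1096 30 = true := by decide +kernel
theorem f1097 : fk 4722 1097 56 = true := by decide +kernel
theorem f1099 : fk 4722 1099 72 = true := by decide +kernel
theorem f1101 : fk 4722 1101 45 = true := by decide +kernel
theorem f1102 : fk 4722 1102 29 = true := by decide +kernel
theorem f1105 : fk 4722 1105 72 = true := by decide +kernel
theorem f1114 : fk 4722 1114 32 = true := by decide +kernel
theorem f1115 : fk 4722 1115 72 = true := by decide +kernel
theorem f1117 : fk 4722 1117 49 = true := by decide +kernel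
theorem f1119 : fk 4722 1119 48 = true := by decide +kernel
theorem f1126 : fk 4722 1126 34 = true := by decide +kernel
theorem f1127 : fk 4722 1127 57 = true := by decide +kernel
theorem f1133 : fk 4722 1133 69 = true := by decide +kernel
theorem f1134 : fk 4722 1134 21 = true := by decide +kernel
theorem f1136 : fk 4722 1136 33 = true := by decide +kernel
theorem f1148 : fk 4722 1148 36 = true := by decide +kernel

theorem fer_1070 : ∀ k ∈ [1070, 1073, 1081, 1087, 1094, 1096, 1097, 1099, 1101, 1102, 1105, 1114, 1115, 1117, 1119, 1126, 1127, 1133, 1134, 1136, 1148], ¬ (num 4722 k).Prime :=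
  cons_ok (fk_spec _ _ _ f1070) <|
  cons_ok (fk_spec _ _ _ f1073) <|
  cons_ok (fk_spec _ _ _ f1081) <|
  cons_ok (fk_spec _ _ _ f1087) <|
  cons_ok (fk_spec _ _ _ f1094) <|
  cons_ok (fk_spec _ _ _ f1096) <|
  cons_ok (fk_spec _ _ _ f1097) <|
  cons_ok (fk_spec _ _ _ f1099) <|
  cons_ok (fk_spec _ _ _ f1101) <|
  cons_ok (fk_spec _ _ _ f1102) <|
  cons_ok (fk_spec _ _ _ f1105) <|
  cons_ok (fk_spec _ _ _ f1114) <|
  cons_ok (fk_spec _ _ _ f1115) <|
  cons_ok (fk_spec _ _ _ f1117) <|
  cons_ok (fk_spec _ _ _ f1119) <|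
  cons_ok (fk_spec _ _ _ f1126) <|
  cons_ok (fk_spec _ _ _ f1127) <|
  cons_ok (fk_spec _ _ _ f1133) <|
  cons_ok (fk_spec _ _ _ f1134) <|
  cons_ok (fk_spec _ _ _ f1136) <|
  cons_ok (fk_spec _ _ _ f1148) <|
  nil_ok 4722

theorem rng_1070 : ∀ k, 1070 ≤ k → k < 1149 → ¬ (num 4722 k).Prime :=
  range_of 4722 1070 1149 [0, 31, 131, 0, 1103, 23, 5, 31, 197, 307, 11, 0, 563, 43, 167, 3203, 29, 0, 199, 61, 163, 5, 107, 167, 0, 599, 0, 0, 8263, 0, 1193, 0, 0, 1020839, 2939, 0, 11, 349, 29, 59, 151, 2804237, 31, 1787, 0, 0, 1281523, 0, 11, 0, 47, 914443, 53, 42727, 103, 89, 0, 0, 125117, 2063, 7, 503, 41, 0, 0, 181, 0, 8693, 2063, 11, 17, 13, 167, 10729, 29, 2011, 24889, 15331, 0] _ (by decide +kernel) (by decide +kernel) fer_1070 (by decide +kernel)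

end Pool.Agent.X33.Z4722
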