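import Pool.Agent.X33.Fer

set_option autoImplicit false
set_option maxRecDepth 100000

/-! Certificates for `(k + 1) ^ φ(4722 - k) + k` with `1149 ≤ k < 1338`. -/

namespace Pool.Agent.X33.Z4722

theorem f1149 : fk 4722 1149 48 = true := by decide +kernel
theorem f1164 : fk 4722 1164 24 = true := by decide +kernel
theorem f1172 : fk 4722 1172 28 = true := by decide +kernel
theorem f1177 : fk 4722 1177 57 = true := by decide +kernel
theorem f1185 : fk 4722 1185 47 = true := by decide +kernel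
theorem f1198 : fk 4722 1198 36 = true := by decide +kernel
theorem f1210 : fk 4722 1210 36 = true := by decide +kernel
theorem f1212 : fk 4722 1212 18 = true := by decide +kernel
theorem f1213 : fk 4722 1213 62 = true := by decide +kernel
theorem f1215 : fk 4722 1215 40 = true := by decide +kernel
theorem f1230 : fk 4722 1230 24 = true := by decide +kernel
theorem f1233 : fk 4722 1233 47 = true := by decide +kernel
theorem f1236 : fk 4722 1236 20 = true := by decide +kernel
theorem f1242 : fk 4722 1242 18 = true := by decide +kernel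
theorem f1244 : fk 4722 1244 34 = true := by decide +kernel
theorem f1253 : fk 4722 1253 70 = true := by decide +kernel
theorem f1257 : fk 4722 1257 29 = true := by decide +kernel
theorem f1265 : fk 4722 1265 70 = true := by decide +kernel
theorem f1280 : fk 4722 1280 35 = true := by decide +kernel
theorem f1281 : fk 4722 1281 44 = true := by decide +kernel
theorem f1282 : fk 4722 1282 28 = true := by decide +kernel
theorem f1284 : fk 4722 1284 23 = true := by decide +kernel
theorem f1301 : fk 4722 1301 63 = true := by decide +kernel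
theorem f1302 : fk 4722 1302 18 = true := by decide +kernel
theorem f1304 : fk 4722 1304 35 = true := by decide +kernel
theorem f1306 : fk 4722 1306 30 = true := by decide +kernel
theorem f1308 : fk 4722 1308 23 = true := by decide +kernel
theorem f1309 : fk 4722 1309 70 = true := by decide +kernel
theorem f1311 : fk 4722 1311 46 = true := by decide +kernel
theorem f1332 : fk 4722 1332 19 = true := by decide +kernel
theorem f1335 : fk 4722 1335 46 = true := by decide +kernel
theorem f1337 : fk 4722 1337 55 = true := by decide +kernel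

theorem fer_1149 : ∀ k ∈ [1149, 1164, 1172, 1177, 1185, 1198, 1210, 1212, 1213, 1215, 1230, 1233, 1236, 1242, 1244, 1253, 1257, 1265, 1280, 1281, 1282, 1284, 1301, 1302, 1304, 1306, 1308, 1309, 1311, 1332, 1335, 1337], ¬ (num 4722 k).Prime :=
  cons_ok (fk_spec _ _ _ f1149) <|
  cons_ok (fk_spec _ _ _ f1164) <|
  cons_ok (fk_spec _ _ _ f1172) <|
  cons_ok (fk_spec _ _ _ f1177) <|
  cons_ok (fk_spec _ _ _ f1185) <|
  cons_ok (fk_spec _ _ _ f1198) <|
  cons_ok (fk_spec _ _ _ f1210) <|
  cons_ok (fk_spec _ _ _ f1212) <|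
  cons_ok (fk_spec _ _ _ f1213) <|
  cons_ok (fk_spec _ _ _ f1215) <|
  cons_ok (fk_spec _ _ _ f1230) <|
  cons_ok (fk_spec _ _ _ f1233) <|
  cons_ok (fk_spec _ _ _ f1236) <|
  cons_ok (fk_spec _ _ _ f1242) <|
  cons_ok (fk_spec _ _ _ f1244) <|
  cons_ok (fk_spec _ _ _ f1253) <|
  cons_ok (fk_spec _ _ _ f1257) <|
  cons_ok (fk_spec _ _ _ f1265) <|
  cons_ok (fk_spec _ _ _ f1280) <|
  cons_ok (fk_spec _ _ _ f1281) <|
  cons_ok (fk_spec _ _ _ f1282) <|
  cons_ok (fk_spec _ _ _ f1284) <|
  cons_ok (fk_spec _ _ _ f1301) <|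
  cons_ok (fk_spec _ _ _ f1302) <|
  cons_ok (fk_spec _ _ _ f1304) <|
  cons_ok (fk_spec _ _ _ f1306) <|
  cons_ok (fk_spec _ _ _ f1308) <|
  cons_ok (fk_spec _ _ _ f1309) <|
  cons_ok (fk_spec _ _ _ f1311) <|
  cons_ok (fk_spec _ _ _ f1332) <|
  cons_ok (fk_spec _ _ _ f1335) <|
  cons_ok (fk_spec _ _ _ f1337) <|
  nil_ok 4722

theorem rng_1149 : ∀ k, 1149 ≤ k → k < 1338 → ¬ (num 4722 k).Prime :=
  range_of 4722 1149 1338 [0, 719, 5, 11, 167, 5227, 11471, 5, 47, 2309, 4120141, 23, 11, 5393653, 11, 0, 7, 34413623, 107, 1873, 1319, 23, 19, 0, 29, 17, 149, 199, 0, 23, 89, 1987, 401, 7349, 263, 86209, 0, 19, 71, 43, 7127, 647, 229, 18793, 23, 233, 1553, 1994897, 3088961, 0, 733, 19, 11, 235559, 421, 167, 19, 13, 487, 17, 83, 0, 5, 0, 0, 41, 0, 11, 67, 188291, 307, 133073, 1321, 9127, 13, 29, 53, 449, 3154103, 71, 11, 0, 5, 101, 0, 503, 7, 0, 47, 75389, 54767, 4241, 5, 0, 19, 0, 1547593, 103, 107, 277747, 509, 4507, 49853, 5879, 0, 1123, 31, 7, 0, 1619, 16901, 11, 37, 47, 31, 1789,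 0, 127, 1423, 20295727, 19, 23, 1033, 30449, 11, 1549, 23, 5, 3499, 1423, 5813, 0, 0, 0, 97, 0, 37, 31, 884269, 1025153, 11, 631, 2083, 2887, 17, 41, 1361, 17, 6982957, 7, 881, 373, 0, 0, 23, 0, 79, 0, 3947, 0, 0, 127, 0, 53, 17, 78277, 67, 181, 11, 39236369, 7, 467, 27632791, 233, 9391, 21347, 23, 545863, 11, 131, 1109, 23, 5, 0, 7, 163, 0, 5981, 0] _ (by decide +kernel) (by decide +kernel) fer_1149 (by decide +kernel)

end Pool.Agent.X33.Z4722
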