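import Pool.Agent.X33.Z4722.C08

set_option autoImplicit false
set_option maxRecDepth 100000

/-! Certificates for `(k + 1) ^ φ(4722 - k) + k` with `1338 ≤ k < 1602`. -/

namespace Pool.Agent.X33.Z4722

theorem f1340 : fk 4722 1340 33 = true := by decide +kernel
theorem f1363 : fk 4722 1363 69 = true := by decide +kernel
theorem f1364 : fk 4722 1364 33 = true := by decide +kernel
theorem f1367 : fk 4722 1367 49 = true := by decide +kernel
theorem f1371 : fk 4722 1371 46 = true := by decide +kernel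
theorem f1374 : fk 4722 1374 22 = true := by decide +kernel
theorem f1386 : fk 4722 1386 23 = true := by decide +kernel
theorem f1390 : fk 4722 1390 28 = true := by decide +kernel
theorem f1397 : fk 4722 1397 45 = true := by decide +kernel
theorem f1407 : fk 4722 1407 32 = true := by decide +kernel
theorem f1408 : fk 4722 1408 34 = true := by decide +kernel
theorem f1419 : fk 4722 1419 45 = true := by decide +kernel
theorem f1422 : fk 4722 1422 17 = true := by decide +kernel
theorem f1424 : fk 4722 1424 32 = true := by decide +kernel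
theorem f1432 : fk 4722 1432 23 = true := by decide +kernel
theorem f1436 : fk 4722 1436 32 = true := by decide +kernel
theorem f1440 : fk 4722 1440 23 = true := by decide +kernel
theorem f1447 : fk 4722 1447 54 = true := by decide +kernel
theorem f1450 : fk 4722 1450 34 = true := by decide +kernel
theorem f1457 : fk 4722 1457 54 = true := by decide +kernel
theorem f1462 : fk 4722 1462 27 = true := by decide +kernel
theorem f1466 : fk 4722 1466 30 = true := by decide +kernel
theorem f1467 : fk 4722 1467 30 = true := by decide +kernel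
theorem f1476 : fk 4722 1476 23 = true := by decide +kernel
theorem f1483 : fk 4722 1483 65 = true := by decide +kernel
theorem f1510 : fk 4722 1510 30 = true := by decide +kernel
theorem f1516 : fk 4722 1516 29 = true := by decide +kernel
theorem f1520 : fk 4722 1520 34 = true := by decide +kernel
theorem f1524 : fk 4722 1524 20 = true := by decide +kernel
theorem f1525 : fk 4722 1525 63 = true := by decide +kernel
theorem f1545 : fk 4722 1545 44 = true := by decide +kernel
theorem f1551 : fk 4722 1551 38 = true := by decide +kernel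
theorem f1553 : fk 4722 1553 66 = true := by decide +kernel
theorem f1554 : fk 4722 1554 20 = true := by decide +kernel
theorem f1565 : fk 4722 1565 50 = true := by decide +kernel
theorem f1566 : fk 4722 1566 22 = true := by decide +kernel
theorem f1578 : fk 4722 1578 22 = true := by decide +kernel
theorem f1584 : fk 4722 1584 22 = true := by decide +kernel
theorem f1601 : fk 4722 1601 65 = true := by decide +kernel

theorem fer_1338 : ∀ k ∈ [1340, 1363, 1364, 1367, 1371, 1374, 1386, 1390, 1397, 1407, 1408, 1419, 1422, 1424, 1432, 1436, 1440, 1447, 1450, 1457, 1462, 1466, 1467, 1476, 1483, 1510, 1516, 1520, 1524, 1525, 1545, 1551, 1553, 1554, 1565, 1566, 1578, 1584, 1601], ¬ (num 4722 k).Prime :=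
  cons_ok (fk_spec _ _ _ f1340) <|
  cons_ok (fk_spec _ _ _ f1363) <|
  cons_ok (fk_spec _ _ _ f1364) <|
  cons_ok (fk_spec _ _ _ f1367) <|
  cons_ok (fk_spec _ _ _ f1371) <|
  cons_ok (fk_spec _ _ _ f1374) <|
  cons_ok (fk_spec _ _ _ f1386) <|
  cons_ok (fk_spec _ _ _ f1390) <|
  cons_ok (fk_spec _ _ _ f1397) <|
  cons_ok (fk_spec _ _ _ f1407) <|
  cons_ok (fk_spec _ _ _ f1408) <|
  cons_ok (fk_spec _ _ _ f1419) <|
  cons_ok (fk_spec _ _ _ f1422) <|
  cons_ok (fk_spec _ _ _ f1424) <|
  cons_ok (fk_spec _ _ _ f1432) <|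
  cons_ok (fk_spec _ _ _ f1436) <|
  cons_ok (fk_spec _ _ _ f1440) <|
  cons_ok (fk_spec _ _ _ f1447) <|
  cons_ok (fk_spec _ _ _ f1450) <|
  cons_ok (fk_spec _ _ _ f1457) <|
  cons_ok (fk_spec _ _ _ f1462) <|
  cons_ok (fk_spec _ _ _ f1466) <|
  cons_ok (fk_spec _ _ _ f1467) <|
  cons_ok (fk_spec _ _ _ f1476) <|
  cons_ok (fk_spec _ _ _ f1483) <|
  cons_ok (fk_spec _ _ _ f1510) <|
  cons_ok (fk_spec _ _ _ f1516) <|
  cons_ok (fk_spec _ _ _ f1520) <|
  cons_ok (fk_spec _ _ _ f1524) <|
  cons_ok (fk_spec _ _ _ f1525) <|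
  cons_ok (fk_spec _ _ _ f1545) <|
  cons_ok (fk_spec _ _ _ f1551) <|
  cons_ok (fk_spec _ _ _ f1553) <|
  cons_ok (fk_spec _ _ _ f1554) <|
  cons_ok (fk_spec _ _ _ f1565) <|
  cons_ok (fk_spec _ _ _ f1566) <|
  cons_ok (fk_spec _ _ _ f1578) <|
  cons_ok (fk_spec _ _ _ f1584) <|
  cons_ok (fk_spec _ _ _ f1601) <|
  nil_ok 4722

theorem rng_1338 : ∀ k, 1338 ≤ k → k < 1602 → ¬ (num 4722 k).Prime :=
  range_of 4722 1338 1602 [11, 11, 0, 7757, 8037847, 2687, 17, 2963, 4007, 491, 6173, 2659, 271, 5, 6491, 14713, 23, 11, 2377, 19, 743, 97, 653, 19, 5280703, 0, 0, 127, 861089, 0, 20297, 41, 11, 0, 71, 37, 0, 7, 19, 823, 45197, 13, 45659, 11, 29710643, 83, 43, 23, 0, 3041, 67, 229, 0, 5, 11273, 30293, 233, 1833487, 5, 0, 67, 11, 181, 691, 44851, 661, 673, 12111263, 132247, 0, 0, 101, 31, 8803, 79, 23, 11, 41, 11, 37, 2014423, 0, 8177957, 263, 0, 1010473, 0, 11, 277, 13, 719, 81533, 227, 71, 0, 6959, 29, 719, 0, 23, 19, 39863, 0, 113, 167, 293, 98317, 7, 89, 0, 43, 17, 0, 5, 211,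 199, 11, 29, 43, 0, 107, 71, 41, 499, 0, 14821, 230693, 19, 0, 0, 2243, 11, 43, 5, 5969597, 997, 263, 2141, 0, 919, 433, 347, 17, 161377, 13217, 0, 19, 12343, 11437, 7, 986659, 23, 345413, 23, 23, 11, 7, 163, 73, 133391, 191, 223, 5223227, 7, 379, 31, 11, 23, 7757, 43, 7, 4013, 0, 915611, 331, 6121, 29, 79, 0, 29, 83, 17977, 0, 53, 53, 23, 0, 0, 26699, 47, 37, 199, 132863, 5, 23, 607, 19, 13, 11, 23, 313, 61, 41, 29, 11, 29, 37, 0, 53, 373, 17, 359, 3301, 0, 1949, 0, 0, 23, 5, 69389, 11, 79, 23, 6827, 269, 1327, 97, 0, 0, 557, 17, 103, 11, 7, 109, 4470143, 199, 487, 103, 61, 0, 71, 127, 11, 1123, 1063, 0, 7, 487, 43, 1069, 47, 109, 30649, 11, 67, 37, 197, 4093, 764131, 199, 17, 7109, 0] _ (by decide +kernel) (by decide +kernel) fer_1338 (by decide +kernel)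

end Pool.Agent.X33.Z4722
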