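import Pool.Agent.X33.Z4722.C09

set_option autoImplicit false
set_option maxRecDepth 100000

/-! Certificates for `(k + 1) ^ φ(4722 - k) + k` with `1602 ≤ k < 1768`. -/

namespace Pool.Agent.X33.Z4722

theorem f1610 : fk 4722 1610 33 = true := by decide +kernel
theorem f1611 : fk 4722 1611 40 = true := by decide +kernel
theorem f1619 : fk 4722 1619 62 = true := by decide +kernel
theorem f1623 : fk 4722 1623 43 = true := by decide +kernel
theorem f1626 : fk 4722 1626 22 = true := by decide +kernel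
theorem f1631 : fk 4722 1631 59 = true := by decide +kernel
theorem f1643 : fk 4722 1643 65 = true := by decide +kernel
theorem f1647 : fk 4722 1647 34 = true := by decide +kernel
theorem f1663 : fk 4722 1663 50 = true := by decide +kernel
theorem f1665 : fk 4722 1665 43 = true := by decide +kernel
theorem f1673 : fk 4722 1673 64 = true := by decide +kernel
theorem f1677 : fk 4722 1677 29 = true := by decide +kernel
theorem f1678 : fk 4722 1678 32 = true := by decide +kernel
theorem f1680 : fk 4722 1680 20 = true := by decide +kernel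
theorem f1686 : fk 4722 1686 19 = true := by decide +kernel
theorem f1688 : fk 4722 1688 31 = true := by decide +kernel
theorem f1695 : fk 4722 1695 43 = true := by decide +kernel
theorem f1702 : fk 4722 1702 26 = true := by decide +kernel
theorem f1704 : fk 4722 1704 22 = true := by decide +kernel
theorem f1712 : fk 4722 1712 22 = true := by decide +kernel
theorem f1717 : fk 4722 1717 51 = true := by decide +kernel
theorem f1729 : fk 4722 1729 61 = true := by decide +kernel
theorem f1731 : fk 4722 1731 42 = true := by decide +kernel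
theorem f1732 : fk 4722 1732 23 = true := by decide +kernel
theorem f1735 : fk 4722 1735 61 = true := by decide +kernel
theorem f1739 : fk 4722 1739 60 = true := by decide +kernel
theorem f1746 : fk 4722 1746 21 = true := by decide +kernel
theorem f1755 : fk 4722 1755 39 = true := by decide +kernel
theorem f1759 : fk 4722 1759 63 = true := by decide +kernel
theorem f1766 : fk 4722 1766 32 = true := by decide +kernel
theorem f1767 : fk 4722 1767 34 = true := by decide +kernel

theorem fer_1602 : ∀ k ∈ [1610, 1611, 1619, 1623, 1626, 1631, 1643, 1647, 1663, 1665, 1673, 1677, 1678, 1680, 1686, 1688, 1695, 1702, 1704, 1712, 1717, 1729, 1731, 1732, 1735, 1739, 1746, 1755, 1759, 1766, 1767], ¬ (num 4722 k).Prime :=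
  cons_ok (fk_spec _ _ _ f1610) <|
  cons_ok (fk_spec _ _ _ f1611) <|
  cons_ok (fk_spec _ _ _ f1619) <|
  cons_ok (fk_spec _ _ _ f1623) <|
  cons_ok (fk_spec _ _ _ f1626) <|
  cons_ok (fk_spec _ _ _ f1631) <|
  cons_ok (fk_spec _ _ _ f1643) <|
  cons_ok (fk_spec _ _ _ f1647) <|
  cons_ok (fk_spec _ _ _ f1663) <|
  cons_ok (fk_spec _ _ _ f1665) <|
  cons_ok (fk_spec _ _ _ f1673) <|
  cons_ok (fk_spec _ _ _ f1677) <|
  cons_ok (fk_spec _ _ _ f1678) <|
  cons_ok (fk_spec _ _ _ f1680) <|
  cons_ok (fk_spec _ _ _ f1686) <|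
  cons_ok (fk_spec _ _ _ f1688) <|
  cons_ok (fk_spec _ _ _ f1695) <|
  cons_ok (fk_spec _ _ _ f1702) <|
  cons_ok (fk_spec _ _ _ f1704) <|
  cons_ok (fk_spec _ _ _ f1712) <|
  cons_ok (fk_spec _ _ _ f1717) <|
  cons_ok (fk_spec _ _ _ f1729) <|
  cons_ok (fk_spec _ _ _ f1731) <|
  cons_ok (fk_spec _ _ _ f1732) <|
  cons_ok (fk_spec _ _ _ f1735) <|
  cons_ok (fk_spec _ _ _ f1739) <|
  cons_ok (fk_spec _ _ _ f1746) <|
  cons_ok (fk_spec _ _ _ f1755) <|
  cons_ok (fk_spec _ _ _ f1759) <|
  cons_ok (fk_spec _ _ _ f1766) <|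
  cons_ok (fk_spec _ _ _ f1767) <|
  nil_ok 4722

theorem rng_1602 : ∀ k, 1602 ≤ k → k < 1768 → ¬ (num 4722 k).Prime :=
  range_of 4722 1602 1768 [23, 11, 23, 3089, 257, 1849663, 11, 421, 0, 0, 4898863, 61, 149, 397, 479, 29, 37, 0, 383, 23, 1063, 0, 47, 2659, 0, 933269, 809, 19, 19, 0, 2749, 163, 23917, 11, 5, 203213, 61, 83, 197, 11, 19, 0, 40697887, 97861, 12799, 0, 7, 4327277, 17246179, 251, 23, 67, 53, 37, 283, 1093, 11, 71, 29, 3119, 29, 0, 11789, 0, 94207, 9927917, 71, 487, 23, 229, 23735561, 0, 61, 29, 5, 0, 0, 9749, 0, 433, 84731, 244003, 17, 41, 0, 541, 0, 31, 167, 44579, 7103, 3407, 3257, 0, 347, 7, 101, 23, 593, 743, 0, 19, 0, 1489, 109, 137, 149, 463321, 179, 5, 0, 19, 457, 45131, 142061, 0, 17, 3191, 67, 53, 23, 443, 11, 131, 875299, 67, 43, 0, 239, 0, 0, 4969, 11, 0, 439, 1801, 103, 0, 307, 78713, 23, 23549, 23, 23, 0, 43, 43, 8329, 71, 5, 12495761, 7, 8123, 0, 5, 11, 764317, 0, 7, 221909, 11, 25439, 101, 13, 0, 0] _ (by decide +kernel) (by decide +kernel) fer_1602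 (by decide +kernel)

end Pool.Agent.X33.Z4722
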