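import Pool.Agent.X33.Z4722.C10

set_option autoImplicit false
set_option maxRecDepth 100000

/-! Certificates for `(k + 1) ^ φ(4722 - k) + k` with `1768 ≤ k < 2034`. -/

namespace Pool.Agent.X33.Z4722

theorem f1773 : fk 4722 1773 42 = true := by decide +kernel
theorem f1774 : fk 4722 1774 28 = true := by decide +kernel
theorem f1776 : fk 4722 1776 21 = true := by decide +kernel
theorem f1777 : fk 4722 1777 46 = true := by decide +kernel
theorem f1787 : fk 4722 1787 50 = true := by decide +kernel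
theorem f1789 : fk 4722 1789 53 = true := by decide +kernel
theorem f1793 : fk 4722 1793 60 = true := by decide +kernel
theorem f1796 : fk 4722 1796 23 = true := by decide +kernel
theorem f1799 : fk 4722 1799 60 = true := by decide +kernel
theorem f1802 : fk 4722 1802 25 = true := by decide +kernel
theorem f1804 : fk 4722 1804 31 = true := by decide +kernel
theorem f1807 : fk 4722 1807 44 = true := by decide +kernel
theorem f1818 : fk 4722 1818 19 = true := by decide +kernel
theorem f1824 : fk 4722 1824 17 = true := by decide +kernel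
theorem f1827 : fk 4722 1827 33 = true := by decide +kernel
theorem f1830 : fk 4722 1830 21 = true := by decide +kernel
theorem f1838 : fk 4722 1838 26 = true := by decide +kernel
theorem f1842 : fk 4722 1842 17 = true := by decide +kernel
theorem f1867 : fk 4722 1867 49 = true := by decide +kernel
theorem f1868 : fk 4722 1868 31 = true := by decide +kernel
theorem f1874 : fk 4722 1874 30 = true := by decide +kernel
theorem f1886 : fk 4722 1886 31 = true := by decide +kernel
theorem f1896 : fk 4722 1896 20 = true := by decide +kernel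
theorem f1899 : fk 4722 1899 40 = true := by decide +kernel
theorem f1903 : fk 4722 1903 60 = true := by decide +kernel
theorem f1908 : fk 4722 1908 17 = true := by decide +kernel
theorem f1912 : fk 4722 1912 24 = true := by decide +kernel
theorem f1917 : fk 4722 1917 28 = true := by decide +kernel
theorem f1922 : fk 4722 1922 21 = true := by decide +kernel
theorem f1936 : fk 4722 1936 26 = true := by decide +kernel
theorem f1938 : fk 4722 1938 20 = true := by decide +kernel
theorem f1947 : fk 4722 1947 31 = true := by decide +kernel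
theorem f1954 : fk 4722 1954 30 = true := by decide +kernel
theorem f1962 : fk 4722 1962 16 = true := by decide +kernel
theorem f1975 : fk 4722 1975 57 = true := by decide +kernel
theorem f1979 : fk 4722 1979 54 = true := by decide +kernel
theorem f1993 : fk 4722 1993 59 = true := by decide +kernel
theorem f1994 : fk 4722 1994 26 = true := by decide +kernel
theorem f1996 : fk 4722 1996 28 = true := by decide +kernel
theorem f2000 : fk 4722 2000 30 = true := by decide +kernel
theorem f2004 : fk 4722 2004 20 = true := by decide +kernel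
theorem f2016 : fk 4722 2016 18 = true := by decide +kernel
theorem f2017 : fk 4722 2017 47 = true := by decide +kernel
theorem f2018 : fk 4722 2018 27 = true := by decide +kernel
theorem f2027 : fk 4722 2027 37 = true := by decide +kernel
theorem f2033 : fk 4722 2033 58 = true := by decide +kernel

theorem fer_1768 : ∀ k ∈ [1773, 1774, 1776, 1777, 1787, 1789, 1793, 1796, 1799, 1802, 1804, 1807, 1818, 1824, 1827, 1830, 1838, 1842, 1867, 1868, 1874, 1886, 1896, 1899, 1903, 1908, 1912, 1917, 1922, 1936, 1938, 1947, 1954, 1962, 1975, 1979, 1993, 1994, 1996, 2000, 2004, 2016, 2017, 2018, 2027, 2033], ¬ (num 4722 k).Prime :=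
  cons_ok (fk_spec _ _ _ f1773) <|
  cons_ok (fk_spec _ _ _ f1774) <|
  cons_ok (fk_spec _ _ _ f1776) <|
  cons_ok (fk_spec _ _ _ f1777) <|
  cons_ok (fk_spec _ _ _ f1787) <|
  cons_ok (fk_spec _ _ _ f1789) <|
  cons_ok (fk_spec _ _ _ f1793) <|
  cons_ok (fk_spec _ _ _ f1796) <|
  cons_ok (fk_spec _ _ _ f1799) <|
  cons_ok (fk_spec _ _ _ f1802) <|
  cons_ok (fk_spec _ _ _ f1804) <|
  cons_ok (fk_spec _ _ _ f1807) <|
  cons_ok (fk_spec _ _ _ f1818) <|
  cons_ok (fk_spec _ _ _ f1824) <|
  cons_ok (fk_spec _ _ _ f1827) <|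
  cons_ok (fk_spec _ _ _ f1830) <|
  cons_ok (fk_spec _ _ _ f1838) <|
  cons_ok (fk_spec _ _ _ f1842) <|
  cons_ok (fk_spec _ _ _ f1867) <|
  cons_ok (fk_spec _ _ _ f1868) <|
  cons_ok (fk_spec _ _ _ f1874) <|
  cons_ok (fk_spec _ _ _ f1886) <|
  cons_ok (fk_spec _ _ _ f1896) <|
  cons_ok (fk_spec _ _ _ f1899) <|
  cons_ok (fk_spec _ _ _ f1903) <|
  cons_ok (fk_spec _ _ _ f1908) <|
  cons_ok (fk_spec _ _ _ f1912) <|
  cons_ok (fk_spec _ _ _ f1917) <|
  cons_ok (fk_spec _ _ _ f1922) <|
  cons_ok (fk_spec _ _ _ f1936) <|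
  cons_ok (fk_spec _ _ _ f1938) <|
  cons_ok (fk_spec _ _ _ f1947) <|
  cons_ok (fk_spec _ _ _ f1954) <|
  cons_ok (fk_spec _ _ _ f1962) <|
  cons_ok (fk_spec _ _ _ f1975) <|
  cons_ok (fk_spec _ _ _ f1979) <|
  cons_ok (fk_spec _ _ _ f1993) <|
  cons_ok (fk_spec _ _ _ f1994) <|
  cons_ok (fk_spec _ _ _ f1996) <|
  cons_ok (fk_spec _ _ _ f2000) <|
  cons_ok (fk_spec _ _ _ f2004) <|
  cons_ok (fk_spec _ _ _ f2016) <|
  cons_ok (fk_spec _ _ _ f2017) <|
  cons_ok (fk_spec _ _ _ f2018) <|
  cons_ok (fk_spec _ _ _ f2027) <|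
  cons_ok (fk_spec _ _ _ f2033) <|
  nil_ok 4722

theorem rng_1768 : ∀ k, 1768 ≤ k → k < 2034 → ¬ (num 4722 k).Prime :=
  range_of 4722 1768 2034 [47, 2803, 389, 131, 149, 0, 0, 2203771, 0, 0, 13, 28866151, 59, 7, 23, 149, 257903, 179, 6469919, 0, 11, 0, 31, 47, 197, 0, 19, 7, 0, 173, 19, 0, 67, 967, 0, 71, 0, 23, 11, 0, 1815449, 18199, 11, 379, 11, 167, 746749, 17404531, 409, 157, 0, 31, 271, 11, 1223, 7400807, 0, 373, 1039, 0, 43, 353, 0, 191, 907, 29, 11, 257, 67, 241, 0, 1579, 17, 239, 0, 107, 7, 647, 4027, 139, 319849, 41, 11, 19, 839, 12289, 11, 227, 13, 19, 4391, 443, 1283, 42718927, 67, 131, 53, 97, 53, 0, 0, 59, 19, 5, 2203, 23, 0, 1171, 5, 223, 83, 7, 6840941, 487, 13, 2999, 5683, 89213, 0, 271, 157, 19, 73, 29, 43220267, 1011137, 19406599, 13, 0, 1063, 599, 0, 7, 127, 19, 0, 227, 11, 5541397, 7, 0, 7691, 20441, 41, 0, 19, 31, 47, 44939, 0, 181, 41, 11, 7, 0, 29, 1288691, 347, 89, 12433, 2137, 3678841, 862307, 5, 13669, 11, 67, 599, 0, 10613, 0, 17, 173, 14251001, 23,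 25951, 27773, 71, 23, 0, 383, 7, 1669, 1543, 29, 59, 0, 233, 29, 101693, 223, 71, 89, 277, 0, 2477, 101, 29, 11, 433, 10459, 71, 3433, 47, 157769, 17, 200983, 0, 107, 239, 803053, 0, 929, 137, 246923, 521, 1427, 541, 1493, 11, 46760797, 19, 17, 5, 197, 0, 0, 23, 0, 59, 7, 11, 0, 1049, 89, 13, 0, 277, 23, 42937, 103, 37, 19, 5, 1553129, 19373, 103183, 47, 0, 0, 0, 184969, 139, 1710197, 71, 454213, 17, 37, 19, 0, 26830681, 23, 773, 11, 41, 0] _ (by decide +kernel) (by decide +kernel) fer_1768 (by decide +kernel)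

end Pool.Agent.X33.Z4722
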