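import Pool.Agent.X33.Fer

set_option autoImplicit false
set_option maxRecDepth 100000

/-! Certificates for `(k + 1) ^ φ(4722 - k) + k` with `2034 ≤ k < 2294`. -/

namespace Pool.Agent.X33.Z4722

theorem f2048 : fk 4722 2048 25 = true := by decide +kernel
theorem f2054 : fk 4722 2054 27 = true := by decide +kernel
theorem f2055 : fk 4722 2055 33 = true := by decide +kernel
theorem f2056 : fk 4722 2056 28 = true := by decide +kernel
theorem f2067 : fk 4722 2067 30 = true := by decide +kernel
theorem f2071 : fk 4722 2071 52 = true := by decide +kernel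
theorem f2078 : fk 4722 2078 29 = true := by decide +kernel
theorem f2081 : fk 4722 2081 54 = true := by decide +kernel
theorem f2083 : fk 4722 2083 44 = true := by decide +kernel
theorem f2086 : fk 4722 2086 29 = true := by decide +kernel
theorem f2102 : fk 4722 2102 23 = true := by decide +kernel
theorem f2103 : fk 4722 2103 38 = true := by decide +kernel
theorem f2104 : fk 4722 2104 21 = true := by decide +kernel
theorem f2111 : fk 4722 2111 49 = true := by decide +kernel
theorem f2115 : fk 4722 2115 34 = true := by decide +kernel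
theorem f2138 : fk 4722 2138 25 = true := by decide +kernel
theorem f2139 : fk 4722 2139 32 = true := by decide +kernel
theorem f2147 : fk 4722 2147 45 = true := by decide +kernel
theorem f2148 : fk 4722 2148 16 = true := by decide +kernel
theorem f2153 : fk 4722 2153 48 = true := by decide +kernel
theorem f2169 : fk 4722 2169 35 = true := by decide +kernel
theorem f2174 : fk 4722 2174 22 = true := by decide +kernel
theorem f2177 : fk 4722 2177 45 = true := by decide +kernel
theorem f2183 : fk 4722 2183 55 = true := by decide +kernel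
theorem f2184 : fk 4722 2184 18 = true := by decide +kernel
theorem f2188 : fk 4722 2188 24 = true := by decide +kernel
theorem f2199 : fk 4722 2199 36 = true := by decide +kernel
theorem f2204 : fk 4722 2204 28 = true := by decide +kernel
theorem f2214 : fk 4722 2214 16 = true := by decide +kernel
theorem f2215 : fk 4722 2215 52 = true := by decide +kernel
theorem f2217 : fk 4722 2217 29 = true := by decide +kernel
theorem f2224 : fk 4722 2224 28 = true := by decide +kernel
theorem f2227 : fk 4722 2227 44 = true := by decide +kernel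
theorem f2230 : fk 4722 2230 23 = true := by decide +kernel
theorem f2231 : fk 4722 2231 52 = true := by decide +kernel
theorem f2240 : fk 4722 2240 26 = true := by decide +kernel
theorem f2241 : fk 4722 2241 36 = true := by decide +kernel
theorem f2247 : fk 4722 2247 27 = true := by decide +kernel
theorem f2251 : fk 4722 2251 46 = true := by decide +kernel
theorem f2252 : fk 4722 2252 19 = true := by decide +kernel
theorem f2265 : fk 4722 2265 29 = true := by decide +kernel
theorem f2270 : fk 4722 2270 27 = true := by decide +kernel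
theorem f2272 : fk 4722 2272 19 = true := by decide +kernel
theorem f2281 : fk 4722 2281 54 = true := by decide +kernel
theorem f2287 : fk 4722 2287 43 = true := by decide +kernel
theorem f2288 : fk 4722 2288 27 = true := by decide +kernel
theorem f2291 : fk 4722 2291 42 = true := by decide +kernel
theorem f2293 : fk 4722 2293 46 = true := by decide +kernel

theorem fer_2034 : ∀ k ∈ [2048, 2054, 2055, 2056, 2067, 2071, 2078, 2081, 2083, 2086, 2102, 2103, 2104, 2111, 2115, 2138, 2139, 2147, 2148, 2153, 2169, 2174, 2177, 2183, 2184, 2188, 2199, 2204, 2214, 2215, 2217, 2224, 2227, 2230, 2231, 2240, 2241, 2247, 2251, 2252, 2265, 2270, 2272, 2281, 2287, 2288, 2291, 2293], ¬ (num 4722 k).Prime :=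
  cons_ok (fk_spec _ _ _ f2048) <|
  cons_ok (fk_spec _ _ _ f2054) <|
  cons_ok (fk_spec _ _ _ f2055) <|
  cons_ok (fk_spec _ _ _ f2056) <|
  cons_ok (fk_spec _ _ _ f2067) <|
  cons_ok (fk_spec _ _ _ f2071) <|
  cons_ok (fk_spec _ _ _ f2078) <|
  cons_ok (fk_spec _ _ _ f2081) <|
  cons_ok (fk_spec _ _ _ f2083) <|
  cons_ok (fk_spec _ _ _ f2086) <|
  cons_ok (fk_spec _ _ _ f2102) <|
  cons_ok (fk_spec _ _ _ f2103) <|
  cons_ok (fk_spec _ _ _ f2104) <|
  cons_ok (fk_spec _ _ _ f2111) <|
  cons_ok (fk_spec _ _ _ f2115) <|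
  cons_ok (fk_spec _ _ _ f2138) <|
  cons_ok (fk_spec _ _ _ f2139) <|
  cons_ok (fk_spec _ _ _ f2147) <|
  cons_ok (fk_spec _ _ _ f2148) <|
  cons_ok (fk_spec _ _ _ f2153) <|
  cons_ok (fk_spec _ _ _ f2169) <|
  cons_ok (fk_spec _ _ _ f2174) <|
  cons_ok (fk_spec _ _ _ f2177) <|
  cons_ok (fk_spec _ _ _ f2183) <|
  cons_ok (fk_spec _ _ _ f2184) <|
  cons_ok (fk_spec _ _ _ f2188) <|
  cons_ok (fk_spec _ _ _ f2199) <|
  cons_ok (fk_spec _ _ _ f2204) <|
  cons_ok (fk_spec _ _ _ f2214) <|
  cons_ok (fk_spec _ _ _ f2215) <|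
  cons_ok (fk_spec _ _ _ f2217) <|
  cons_ok (fk_spec _ _ _ f2224) <|
  cons_ok (fk_spec _ _ _ f2227) <|
  cons_ok (fk_spec _ _ _ f2230) <|
  cons_ok (fk_spec _ _ _ f2231) <|
  cons_ok (fk_spec _ _ _ f2240) <|
  cons_ok (fk_spec _ _ _ f2241) <|
  cons_ok (fk_spec _ _ _ f2247) <|
  cons_ok (fk_spec _ _ _ f2251) <|
  cons_ok (fk_spec _ _ _ f2252) <|
  cons_ok (fk_spec _ _ _ f2265) <|
  cons_ok (fk_spec _ _ _ f2270) <|
  cons_ok (fk_spec _ _ _ f2272) <|
  cons_ok (fk_spec _ _ _ f2281) <|
  cons_ok (fk_spec _ _ _ f2287) <|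
  cons_ok (fk_spec _ _ _ f2288) <|
  cons_ok (fk_spec _ _ _ f2291) <|
  cons_ok (fk_spec _ _ _ f2293) <|
  nil_ok 4722

theorem rng_2034 : ∀ k, 2034 ≤ k → k < 2294 → ¬ (num 4722 k).Prime :=
  range_of 4722 2034 2294 [211, 241, 1291, 116329, 263, 23, 61, 11, 2551, 43, 167, 19, 1637029, 4758043, 0, 149, 463, 5, 443, 149, 0, 0, 0, 131, 39541, 11, 2713, 4674797, 389, 89, 11, 29311, 23, 0, 13, 359, 2273, 0, 2543, 439, 337, 408923, 16901, 503, 0, 14593, 1627, 0, 7, 0, 23, 11, 0, 79, 107, 7, 249217, 43, 29129, 79, 3006763, 151, 43, 3023, 557789, 1427, 765043, 503, 0, 0, 0, 419, 1061, 23, 96643, 167, 29, 0, 1093, 1521643, 299857, 0, 5, 7, 1619, 13477, 14341, 19, 6619, 402049, 20117, 71, 29, 23, 5763827, 11, 11, 5, 137, 655757, 1019, 97, 4889, 163, 0, 0, 19, 11, 509, 239, 43, 557, 4283, 0, 0, 103, 41, 11, 7, 0, 113, 19, 5, 53, 53, 7, 20161, 347, 263, 11, 11, 71, 28423513, 376811, 13, 0, 97, 5, 149, 7, 0, 241, 977, 0, 29723, 8087, 89, 29, 401, 0, 0, 31, 37, 484609, 0, 349, 103, 5, 32443, 19,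 242797, 11, 134081, 1151, 1747, 0, 223, 3343, 67, 733, 0, 281, 11, 13, 199, 29, 37, 17, 43, 59, 0, 0, 1297, 0, 2639999, 419, 43, 1879, 7, 1432979, 0, 1487989, 2706419, 0, 54721, 71, 0, 0, 2251877, 20786179, 10007, 1097, 7, 229, 139, 9067, 0, 0, 149, 15990043, 163, 17, 118633, 0, 17, 10009, 19, 0, 0, 59, 613, 29, 211, 7, 3607, 419687, 613, 11, 499, 11, 7, 0, 47363, 7933, 29, 19, 0, 16691027, 0, 509, 11, 919, 5, 366511, 30259, 2825759, 281, 0, 4960981, 653, 11, 53, 53, 0, 0, 3907, 11, 0, 39563, 0] _ (by decide +kernel) (by decide +kernel) fer_2034 (by decide +kernel)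

end Pool.Agent.X33.Z4722
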