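import Pool.Agent.X33.Z4722.C12

set_option autoImplicit false
set_option maxRecDepth 100000

/-! Certificates for `(k + 1) ^ φ(4722 - k) + k` with `2294 ≤ k < 2652`. -/

namespace Pool.Agent.X33.Z4722

theorem f2297 : fk 4722 2297 42 = true := by decide +kernel
theorem f2301 : fk 4722 2301 36 = true := by decide +kernel
theorem f2305 : fk 4722 2305 53 = true := by decide +kernel
theorem f2312 : fk 4722 2312 21 = true := by decide +kernel
theorem f2317 : fk 4722 2317 38 = true := by decide +kernel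
theorem f2318 : fk 4722 2318 27 = true := by decide +kernel
theorem f2332 : fk 4722 2332 21 = true := by decide +kernel
theorem f2343 : fk 4722 2343 32 = true := by decide +kernel
theorem f2345 : fk 4722 2345 52 = true := by decide +kernel
theorem f2346 : fk 4722 2346 16 = true := by decide +kernel
theorem f2352 : fk 4722 2352 14 = true := by decide +kernel
theorem f2356 : fk 4722 2356 21 = true := by decide +kernel
theorem f2358 : fk 4722 2358 18 = true := by decide +kernel
theorem f2366 : fk 4722 2366 24 = true := by decide +kernel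
theorem f2367 : fk 4722 2367 28 = true := by decide +kernel
theorem f2374 : fk 4722 2374 26 = true := by decide +kernel
theorem f2377 : fk 4722 2377 35 = true := by decide +kernel
theorem f2391 : fk 4722 2391 29 = true := by decide +kernel
theorem f2392 : fk 4722 2392 21 = true := by decide +kernel
theorem f2394 : fk 4722 2394 17 = true := by decide +kernel
theorem f2400 : fk 4722 2400 17 = true := by decide +kernel
theorem f2410 : fk 4722 2410 24 = true := by decide +kernel
theorem f2412 : fk 4722 2412 11 = true := by decide +kernel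
theorem f2415 : fk 4722 2415 34 = true := by decide +kernel
theorem f2417 : fk 4722 2417 41 = true := by decide +kernel
theorem f2419 : fk 4722 2419 43 = true := by decide +kernel
theorem f2423 : fk 4722 2423 44 = true := by decide +kernel
theorem f2426 : fk 4722 2426 22 = true := by decide +kernel
theorem f2432 : fk 4722 2432 21 = true := by decide +kernel
theorem f2440 : fk 4722 2440 22 = true := by decide +kernel
theorem f2442 : fk 4722 2442 13 = true := by decide +kernel
theorem f2450 : fk 4722 2450 25 = true := by decide +kernel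
theorem f2455 : fk 4722 2455 50 = true := by decide +kernel
theorem f2460 : fk 4722 2460 15 = true := by decide +kernel
theorem f2462 : fk 4722 2462 20 = true := by decide +kernel
theorem f2465 : fk 4722 2465 48 = true := by decide +kernel
theorem f2468 : fk 4722 2468 21 = true := by decide +kernel
theorem f2470 : fk 4722 2470 25 = true := by decide +kernel
theorem f2472 : fk 4722 2472 14 = true := by decide +kernel
theorem f2475 : fk 4722 2475 29 = true := by decide +kernel
theorem f2481 : fk 4722 2481 33 = true := by decide +kernel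
theorem f2484 : fk 4722 2484 17 = true := by decide +kernel
theorem f2507 : fk 4722 2507 39 = true := by decide +kernel
theorem f2512 : fk 4722 2512 17 = true := by decide +kernel
theorem f2515 : fk 4722 2515 49 = true := by decide +kernel
theorem f2517 : fk 4722 2517 23 = true := by decide +kernel
theorem f2529 : fk 4722 2529 30 = true := by decide +kernel
theorem f2538 : fk 4722 2538 13 = true := by decide +kernel
theorem f2551 : fk 4722 2551 45 = true := by decide +kernel
theorem f2553 : fk 4722 2553 32 = true := by decide +kernel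
theorem f2561 : fk 4722 2561 48 = true := by decide +kernel
theorem f2572 : fk 4722 2572 19 = true := by decide +kernel
theorem f2573 : fk 4722 2573 41 = true := by decide +kernel
theorem f2579 : fk 4722 2579 48 = true := by decide +kernel
theorem f2588 : fk 4722 2588 22 = true := by decide +kernel
theorem f2592 : fk 4722 2592 13 = true := by decide +kernel
theorem f2599 : fk 4722 2599 43 = true := by decide +kernel
theorem f2614 : fk 4722 2614 22 = true := by decide +kernel
theorem f2619 : fk 4722 2619 32 = true := by decide +kernel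
theorem f2620 : fk 4722 2620 24 = true := by decide +kernel
theorem f2636 : fk 4722 2636 20 = true := by decide +kernel
theorem f2645 : fk 4722 2645 44 = true := by decide +kernel
theorem f2651 : fk 4722 2651 44 = true := by decide +kernel

theorem fer_2294 : ∀ k ∈ [2297, 2301, 2305, 2312, 2317, 2318, 2332, 2343, 2345, 2346, 2352, 2356, 2358, 2366, 2367, 2374, 2377, 2391, 2392, 2394, 2400, 2410, 2412, 2415, 2417, 2419, 2423, 2426, 2432, 2440, 2442, 2450, 2455, 2460, 2462, 2465, 2468, 2470, 2472, 2475, 2481, 2484, 2507, 2512, 2515, 2517, 2529, 2538, 2551, 2553, 2561, 2572, 2573, 2579, 2588, 2592, 2599, 2614, 2619, 2620, 2636, 2645, 2651], ¬ (num 4722 k).Prime :=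
  cons_ok (fk_spec _ _ _ f2297) <|
  cons_ok (fk_spec _ _ _ f2301) <|
  cons_ok (fk_spec _ _ _ f2305) <|
  cons_ok (fk_spec _ _ _ f2312) <|
  cons_ok (fk_spec _ _ _ f2317) <|
  cons_ok (fk_spec _ _ _ f2318) <|
  cons_ok (fk_spec _ _ _ f2332) <|
  cons_ok (fk_spec _ _ _ f2343) <|
  cons_ok (fk_spec _ _ _ f2345) <|
  cons_ok (fk_spec _ _ _ f2346) <|
  cons_ok (fk_spec _ _ _ f2352) <|
  cons_ok (fk_spec _ _ _ f2356) <|
  cons_ok (fk_spec _ _ _ f2358) <|
  cons_ok (fk_spec _ _ _ f2366) <|
  cons_ok (fk_spec _ _ _ f2367) <|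
  cons_ok (fk_spec _ _ _ f2374) <|
  cons_ok (fk_spec _ _ _ f2377) <|
  cons_ok (fk_spec _ _ _ f2391) <|
  cons_ok (fk_spec _ _ _ f2392) <|
  cons_ok (fk_spec _ _ _ f2394) <|
  cons_ok (fk_spec _ _ _ f2400) <|
  cons_ok (fk_spec _ _ _ f2410) <|
  cons_ok (fk_spec _ _ _ f2412) <|
  cons_ok (fk_spec _ _ _ f2415) <|
  cons_ok (fk_spec _ _ _ f2417) <|
  cons_ok (fk_spec _ _ _ f2419) <|
  cons_ok (fk_spec _ _ _ f2423) <|
  cons_ok (fk_spec _ _ _ f2426) <|
  cons_ok (fk_spec _ _ _ f2432) <|
  cons_ok (fk_spec _ _ _ f2440) <|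
  cons_ok (fk_spec _ _ _ f2442) <|
  cons_ok (fk_spec _ _ _ f2450) <|
  cons_ok (fk_spec _ _ _ f2455) <|
  cons_ok (fk_spec _ _ _ f2460) <|
  cons_ok (fk_spec _ _ _ f2462) <|
  cons_ok (fk_spec _ _ _ f2465) <|
  cons_ok (fk_spec _ _ _ f2468) <|
  cons_ok (fk_spec _ _ _ f2470) <|
  cons_ok (fk_spec _ _ _ f2472) <|
  cons_ok (fk_spec _ _ _ f2475) <|
  cons_ok (fk_spec _ _ _ f2481) <|
  cons_ok (fk_spec _ _ _ f2484) <|
  cons_ok (fk_spec _ _ _ f2507) <|
  cons_ok (fk_spec _ _ _ f2512) <|
  cons_ok (fk_spec _ _ _ f2515) <|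
  cons_ok (fk_spec _ _ _ f2517) <|
  cons_ok (fk_spec _ _ _ f2529) <|
  cons_ok (fk_spec _ _ _ f2538) <|
  cons_ok (fk_spec _ _ _ f2551) <|
  cons_ok (fk_spec _ _ _ f2553) <|
  cons_ok (fk_spec _ _ _ f2561) <|
  cons_ok (fk_spec _ _ _ f2572) <|
  cons_ok (fk_spec _ _ _ f2573) <|
  cons_ok (fk_spec _ _ _ f2579) <|
  cons_ok (fk_spec _ _ _ f2588) <|
  cons_ok (fk_spec _ _ _ f2592) <|
  cons_ok (fk_spec _ _ _ f2599) <|
  cons_ok (fk_spec _ _ _ f2614) <|
  cons_ok (fk_spec _ _ _ f2619) <|
  cons_ok (fk_spec _ _ _ f2620) <|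
  cons_ok (fk_spec _ _ _ f2636) <|
  cons_ok (fk_spec _ _ _ f2645) <|
  cons_ok (fk_spec _ _ _ f2651) <|
  nil_ok 4722

theorem rng_2294 : ∀ k, 2294 ≤ k → k < 2652 → ¬ (num 4722 k).Prime :=
  range_of 4722 2294 2652 [11, 19, 17, 0, 151, 7, 353, 0, 13907, 191, 197, 0, 89, 107, 12256087, 251, 1487, 5, 0, 71, 233, 37, 599, 0, 0, 241, 1319, 5, 2221, 2999, 29, 8291, 1193, 7, 967, 29, 19, 920167, 0, 17, 11, 109, 67, 691, 2341, 479, 428221, 7, 37, 0, 2184769, 0, 0, 3623, 7, 19, 11, 5, 0, 37381007, 269, 29, 0, 14633, 0, 107, 479, 97, 7, 823, 17, 4561, 0, 0, 73, 2100173, 1613, 5, 6689, 65551, 0, 53, 2966897, 0, 59, 435709, 13, 17, 29, 7, 17, 251, 2333, 977, 19, 11, 19, 0, 0, 1667, 0, 4513, 5, 43, 424861, 1266241, 0, 17, 31, 67, 422369, 269, 11, 4451, 149, 23, 0, 5, 0, 28643, 1051, 0, 59, 0, 179, 0, 41, 19, 53, 0, 9511, 7, 0, 3643, 491, 389, 14897, 61, 0, 31, 23, 56377, 2727121, 3470741, 227, 1301, 0, 21283, 0, 341647, 19, 6863, 17317, 43, 25576373, 656371, 0, 27271, 88321, 5150987, 727,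 0, 1109, 83, 1711207, 1429, 0, 11, 0, 28867, 11340643, 0, 269, 7, 0, 29, 0, 5, 0, 83, 7, 0, 5, 11, 29, 43, 12892403, 0, 19, 11, 0, 1489, 269, 47, 19697, 23, 15541, 109, 463, 11, 1831, 7, 827, 53, 256019, 23, 37, 47207, 43, 149, 23, 41, 37, 0, 127, 7, 7451, 1087, 0, 1459, 2347, 0, 5, 0, 79, 24197, 19, 2953, 19, 97, 4831, 27799169, 674347, 29, 2145769, 0, 357823, 233, 127, 2243, 17, 61, 11, 11, 0, 630017, 4621, 8369021, 61, 29, 635087, 107, 37813, 73, 863, 509, 53, 0, 40129, 0, 631, 443, 593, 29, 115613, 11, 59, 0, 139, 659, 37, 163, 3022819, 47, 17, 11, 59, 11, 0, 0, 37, 953, 2237, 3853, 61493, 0, 29339, 1153, 11, 313, 136963, 859, 1787, 28571, 0, 67, 11831, 5, 0, 7, 29, 19609, 5, 13, 27084433, 0, 7, 37, 11, 11, 971, 54421, 53, 2003, 14431, 11, 13, 5, 83, 23, 0, 117133, 29, 37, 23, 0, 0, 7, 479, 47, 22003, 43, 2293, 7070639, 41, 179827, 2055041, 506647, 33941, 353, 53, 7, 0, 3919, 191, 11443, 107, 31, 164653, 29, 17, 0, 151523, 47, 30091, 12735773, 136769, 0] _ (by decide +kernel)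 (by decide +kernel) fer_2294 (by decide +kernel)

end Pool.Agent.X33.Z4722
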