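import Pool.Agent.X33.Z4722.C13

set_option autoImplicit false
set_option maxRecDepth 100000

/-! Certificates for `(k + 1) ^ φ(4722 - k) + k` with `2652 ≤ k < 3219`. -/

namespace Pool.Agent.X33.Z4722

theorem f2660 : fk 4722 2660 23 = true := by decide +kernel
theorem f2661 : fk 4722 2661 31 = true := by decide +kernel
theorem f2668 : fk 4722 2668 21 = true := by decide +kernel
theorem f2671 : fk 4722 2671 39 = true := by decide +kernel
theorem f2676 : fk 4722 2676 14 = true := by decide +kernel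
theorem f2680 : fk 4722 2680 23 = true := by decide +kernel
theorem f2683 : fk 4722 2683 46 = true := by decide +kernel
theorem f2692 : fk 4722 2692 15 = true := by decide +kernel
theorem f2697 : fk 4722 2697 25 = true := by decide +kernel
theorem f2700 : fk 4722 2700 15 = true := by decide +kernel
theorem f2703 : fk 4722 2703 30 = true := by decide +kernel
theorem f2704 : fk 4722 2704 23 = true := by decide +kernel
theorem f2706 : fk 4722 2706 13 = true := by decide +kernel
theorem f2709 : fk 4722 2709 27 = true := by decide +kernel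
theorem f2713 : fk 4722 2713 38 = true := by decide +kernel
theorem f2715 : fk 4722 2715 30 = true := by decide +kernel
theorem f2717 : fk 4722 2717 36 = true := by decide +kernel
theorem f2732 : fk 4722 2732 18 = true := by decide +kernel
theorem f2733 : fk 4722 2733 26 = true := by decide +kernel
theorem f2734 : fk 4722 2734 19 = true := by decide +kernel
theorem f2752 : fk 4722 2752 18 = true := by decide +kernel
theorem f2757 : fk 4722 2757 24 = true := by decide +kernel
theorem f2765 : fk 4722 2765 42 = true := by decide +kernel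
theorem f2770 : fk 4722 2770 22 = true := by decide +kernel
theorem f2778 : fk 4722 2778 15 = true := by decide +kernel
theorem f2782 : fk 4722 2782 18 = true := by decide +kernel
theorem f2783 : fk 4722 2783 38 = true := by decide +kernel
theorem f2796 : fk 4722 2796 15 = true := by decide +kernel
theorem f2801 : fk 4722 2801 41 = true := by decide +kernel
theorem f2807 : fk 4722 2807 35 = true := by decide +kernel
theorem f2811 : fk 4722 2811 23 = true := by decide +kernel
theorem f2816 : fk 4722 2816 22 = true := by decide +kernel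
theorem f2819 : fk 4722 2819 39 = true := by decide +kernel
theorem f2821 : fk 4722 2821 43 = true := by decide +kernel
theorem f2822 : fk 4722 2822 17 = true := by decide +kernel
theorem f2824 : fk 4722 2824 20 = true := by decide +kernel
theorem f2827 : fk 4722 2827 34 = true := by decide +kernel
theorem f2837 : fk 4722 2837 31 = true := by decide +kernel
theorem f2841 : fk 4722 2841 25 = true := by decide +kernel
theorem f2843 : fk 4722 2843 43 = true := by decide +kernel
theorem f2850 : fk 4722 2850 13 = true := by decide +kernel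
theorem f2865 : fk 4722 2865 28 = true := by decide +kernel
theorem f2870 : fk 4722 2870 21 = true := by decide +kernel
theorem f2884 : fk 4722 2884 21 = true := by decide +kernel
theorem f2888 : fk 4722 2888 18 = true := by decide +kernel
theorem f2907 : fk 4722 2907 20 = true := by decide +kernel
theorem f2920 : fk 4722 2920 19 = true := by decide +kernel
theorem f2933 : fk 4722 2933 41 = true := by decide +kernel
theorem f2940 : fk 4722 2940 13 = true := by decide +kernel
theorem f2955 : fk 4722 2955 25 = true := by decide +kernel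
theorem f2959 : fk 4722 2959 38 = true := by decide +kernel
theorem f2962 : fk 4722 2962 15 = true := by decide +kernel
theorem f2967 : fk 4722 2967 20 = true := by decide +kernel
theorem f2968 : fk 4722 2968 20 = true := by decide +kernel
theorem f2969 : fk 4722 2969 40 = true := by decide +kernel
theorem f2973 : fk 4722 2973 24 = true := by decide +kernel
theorem f2974 : fk 4722 2974 18 = true := by decide +kernel
theorem f2979 : fk 4722 2979 23 = true := by decide +kernel
theorem f2997 : fk 4722 2997 20 = true := by decide +kernel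
theorem f3000 : fk 4722 3000 11 = true := by decide +kernel
theorem f3007 : fk 4722 3007 27 = true := by decide +kernel
theorem f3018 : fk 4722 3018 13 = true := by decide +kernel
theorem f3025 : fk 4722 3025 39 = true := by decide +kernel
theorem f3029 : fk 4722 3029 39 = true := by decide +kernel
theorem f3031 : fk 4722 3031 36 = true := by decide +kernel
theorem f3033 : fk 4722 3033 26 = true := by decide +kernel
theorem f3040 : fk 4722 3040 19 = true := by decide +kernel
theorem f3041 : fk 4722 3041 38 = true := by decide +kernel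
theorem f3056 : fk 4722 3056 16 = true := by decide +kernel
theorem f3068 : fk 4722 3068 19 = true := by decide +kernel
theorem f3069 : fk 4722 3069 23 = true := by decide +kernel
theorem f3070 : fk 4722 3070 16 = true := by decide +kernel
theorem f3089 : fk 4722 3089 35 = true := by decide +kernel
theorem f3091 : fk 4722 3091 32 = true := by decide +kernel
theorem f3093 : fk 4722 3093 25 = true := by decide +kernel
theorem f3094 : fk 4722 3094 17 = true := by decide +kernel
theorem f3096 : fk 4722 3096 13 = true := by decide +kernel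
theorem f3102 : fk 4722 3102 10 = true := by decide +kernel
theorem f3110 : fk 4722 3110 17 = true := by decide +kernel
theorem f3116 : fk 4722 3116 17 = true := by decide +kernel
theorem f3120 : fk 4722 3120 12 = true := by decide +kernel
theorem f3134 : fk 4722 3134 18 = true := by decide +kernel
theorem f3141 : fk 4722 3141 22 = true := by decide +kernel
theorem f3147 : fk 4722 3147 17 = true := by decide +kernel
theorem f3150 : fk 4722 3150 12 = true := by decide +kernel
theorem f3155 : fk 4722 3155 36 = true := by decide +kernel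
theorem f3161 : fk 4722 3161 31 = true := by decide +kernel
theorem f3163 : fk 4722 3163 36 = true := by decide +kernel
theorem f3176 : fk 4722 3176 18 = true := by decide +kernel
theorem f3189 : fk 4722 3189 20 = true := by decide +kernel
theorem f3195 : fk 4722 3195 24 = true := by decide +kernel
theorem f3203 : fk 4722 3203 29 = true := by decide +kernel
theorem f3207 : fk 4722 3207 19 = true := by decide +kernel
theorem f3217 : fk 4722 3217 23 = true := by decide +kernel
theorem f3218 : fk 4722 3218 17 = true := by decide +kernel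

theorem fer_2652 : ∀ k ∈ [2660, 2661, 2668, 2671, 2676, 2680, 2683, 2692, 2697, 2700, 2703, 2704, 2706, 2709, 2713, 2715, 2717, 2732, 2733, 2734, 2752, 2757, 2765, 2770, 2778, 2782, 2783, 2796, 2801, 2807, 2811, 2816, 2819, 2821, 2822, 2824, 2827, 2837, 2841, 2843, 2850, 2865, 2870, 2884, 2888, 2907, 2920, 2933, 2940, 2955, 2959, 2962, 2967, 2968, 2969, 2973, 2974, 2979, 2997, 3000, 3007, 3018, 3025, 3029, 3031, 3033, 3040, 3041, 3056, 3068, 3069, 3070, 3089, 3091, 3093, 3094, 3096, 3102, 3110, 3116, 3120, 3134, 3141, 3147, 3150, 3155, 3161, 3163, 3176, 3189, 3195, 3203, 3207, 3217, 3218], ¬ (num 4722 k).Prime :=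
  cons_ok (fk_spec _ _ _ f2660) <|
  cons_ok (fk_spec _ _ _ f2661) <|
  cons_ok (fk_spec _ _ _ f2668) <|
  cons_ok (fk_spec _ _ _ f2671) <|
  cons_ok (fk_spec _ _ _ f2676) <|
  cons_ok (fk_spec _ _ _ f2680) <|
  cons_ok (fk_spec _ _ _ f2683) <|
  cons_ok (fk_spec _ _ _ f2692) <|
  cons_ok (fk_spec _ _ _ f2697) <|
  cons_ok (fk_spec _ _ _ f2700) <|
  cons_ok (fk_spec _ _ _ f2703) <|
  cons_ok (fk_spec _ _ _ f2704) <|
  cons_ok (fk_spec _ _ _ f2706) <|
  cons_ok (fk_spec _ _ _ f2709) <|
  cons_ok (fk_spec _ _ _ f2713) <|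
  cons_ok (fk_spec _ _ _ f2715) <|
  cons_ok (fk_spec _ _ _ f2717) <|
  cons_ok (fk_spec _ _ _ f2732) <|
  cons_ok (fk_spec _ _ _ f2733) <|
  cons_ok (fk_spec _ _ _ f2734) <|
  cons_ok (fk_spec _ _ _ f2752) <|
  cons_ok (fk_spec _ _ _ f2757) <|
  cons_ok (fk_spec _ _ _ f2765) <|
  cons_ok (fk_spec _ _ _ f2770) <|
  cons_ok (fk_spec _ _ _ f2778) <|
  cons_ok (fk_spec _ _ _ f2782) <|
  cons_ok (fk_spec _ _ _ f2783) <|
  cons_ok (fk_spec _ _ _ f2796) <|
  cons_ok (fk_spec _ _ _ f2801) <|
  cons_ok (fk_spec _ _ _ f2807) <|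
  cons_ok (fk_spec _ _ _ f2811) <|
  cons_ok (fk_spec _ _ _ f2816) <|
  cons_ok (fk_spec _ _ _ f2819) <|
  cons_ok (fk_spec _ _ _ f2821) <|
  cons_ok (fk_spec _ _ _ f2822) <|
  cons_ok (fk_spec _ _ _ f2824) <|
  cons_ok (fk_spec _ _ _ f2827) <|
  cons_ok (fk_spec _ _ _ f2837) <|
  cons_ok (fk_spec _ _ _ f2841) <|
  cons_ok (fk_spec _ _ _ f2843) <|
  cons_ok (fk_spec _ _ _ f2850) <|
  cons_ok (fk_spec _ _ _ f2865) <|
  cons_ok (fk_spec _ _ _ f2870) <|
  cons_ok (fk_spec _ _ _ f2884) <|
  cons_ok (fk_spec _ _ _ f2888) <|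
  cons_ok (fk_spec _ _ _ f2907) <|
  cons_ok (fk_spec _ _ _ f2920) <|
  cons_ok (fk_spec _ _ _ f2933) <|
  cons_ok (fk_spec _ _ _ f2940) <|
  cons_ok (fk_spec _ _ _ f2955) <|
  cons_ok (fk_spec _ _ _ f2959) <|
  cons_ok (fk_spec _ _ _ f2962) <|
  cons_ok (fk_spec _ _ _ f2967) <|
  cons_ok (fk_spec _ _ _ f2968) <|
  cons_ok (fk_spec _ _ _ f2969) <|
  cons_ok (fk_spec _ _ _ f2973) <|
  cons_ok (fk_spec _ _ _ f2974) <|
  cons_ok (fk_spec _ _ _ f2979) <|
  cons_ok (fk_spec _ _ _ f2997) <|
  cons_ok (fk_spec _ _ _ f3000) <|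
  cons_ok (fk_spec _ _ _ f3007) <|
  cons_ok (fk_spec _ _ _ f3018) <|
  cons_ok (fk_spec _ _ _ f3025) <|
  cons_ok (fk_spec _ _ _ f3029) <|
  cons_ok (fk_spec _ _ _ f3031) <|
  cons_ok (fk_spec _ _ _ f3033) <|
  cons_ok (fk_spec _ _ _ f3040) <|
  cons_ok (fk_spec _ _ _ f3041) <|
  cons_ok (fk_spec _ _ _ f3056) <|
  cons_ok (fk_spec _ _ _ f3068) <|
  cons_ok (fk_spec _ _ _ f3069) <|
  cons_ok (fk_spec _ _ _ f3070) <|
  cons_ok (fk_spec _ _ _ f3089) <|
  cons_ok (fk_spec _ _ _ f3091) <|
  cons_ok (fk_spec _ _ _ f3093) <|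
  cons_ok (fk_spec _ _ _ f3094) <|
  cons_ok (fk_spec _ _ _ f3096) <|
  cons_ok (fk_spec _ _ _ f3102) <|
  cons_ok (fk_spec _ _ _ f3110) <|
  cons_ok (fk_spec _ _ _ f3116) <|
  cons_ok (fk_spec _ _ _ f3120) <|
  cons_ok (fk_spec _ _ _ f3134) <|
  cons_ok (fk_spec _ _ _ f3141) <|
  cons_ok (fk_spec _ _ _ f3147) <|
  cons_ok (fk_spec _ _ _ f3150) <|
  cons_ok (fk_spec _ _ _ f3155) <|
  cons_ok (fk_spec _ _ _ f3161) <|
  cons_ok (fk_spec _ _ _ f3163) <|
  cons_ok (fk_spec _ _ _ f3176) <|
  cons_ok (fk_spec _ _ _ f3189) <|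
  cons_ok (fk_spec _ _ _ f3195) <|
  cons_ok (fk_spec _ _ _ f3203) <|
  cons_ok (fk_spec _ _ _ f3207) <|
  cons_ok (fk_spec _ _ _ f3217) <|
  cons_ok (fk_spec _ _ _ f3218) <|
  nil_ok 4722

theorem rng_2652 : ∀ k, 2652 ≤ k → k < 3219 → ¬ (num 4722 k).Prime :=
  range_of 4722 2652 3219 [29, 17, 19, 15361, 53, 11, 4021, 877, 0, 0, 5653, 7, 311, 59, 92387, 1307, 0, 283, 11, 0, 29, 17, 641, 13, 0, 127, 563, 8739637, 0, 29, 113, 0, 7, 1279, 35244589, 761, 41, 36241, 2689, 17489, 0, 31, 1303, 6131, 22199231, 0, 7, 1217, 0, 11, 157, 0, 0, 379, 0, 53, 83, 0, 23, 5, 2473, 0, 13, 0, 113, 0, 193, 7, 89, 107, 233, 67, 31, 23473, 10853, 79, 37, 19, 251, 23, 0, 0, 0, 449, 43, 2081, 787, 1497803, 823903, 11, 6053, 6163, 19, 79, 11, 3169, 19, 31, 9581401, 23, 0, 13, 7, 12583, 5, 0, 17, 26053, 58217, 59, 1399, 2213, 29, 0, 57413, 1129511, 7, 59, 0, 5, 1669, 2963, 11, 1012079, 25847, 709, 0, 32693, 181, 307, 0, 0, 796259, 389, 59, 5527, 3862039, 11, 264403, 5, 1374743, 1889, 1879, 349, 0, 29,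 20171981, 53, 53, 0, 448793, 103, 59, 881, 17, 0, 47, 173, 7, 0, 167, 53, 28843, 44021, 0, 31, 3581, 0, 461, 0, 0, 17, 0, 23, 23, 0, 197, 2111, 3793, 1091, 562273, 19, 67, 83, 9613, 0, 1471133, 19, 17, 0, 191, 0, 31, 7, 479, 29, 6701, 107, 0, 5, 7, 17025131, 269, 761, 229, 11, 727, 59221, 17, 4019, 19, 9857, 21701, 0, 67, 349, 31883, 1062343, 0, 2581669, 421, 163, 2777, 17, 3691, 19, 9337619, 11, 107, 476911, 19, 43, 0, 353, 397, 267893, 0, 11, 1783, 5, 23, 241, 541, 374893, 13, 14149, 31, 11, 163, 23983307, 53, 2341, 193, 59, 269, 0, 23, 577, 787, 5, 278981, 387313, 59, 41, 277, 1489, 23, 19, 0, 599, 821, 67, 59, 17, 137, 83, 241, 452629, 499, 61, 11, 0, 41, 103, 5351, 31723, 251, 11, 0, 1571, 113, 761, 4217, 317, 251, 11801, 109, 1307, 167, 83, 53, 19, 2377, 0, 5, 7, 23, 0, 7879, 11, 0, 349, 157, 430873, 42461, 0, 0, 0, 439, 37, 19, 0, 0, 1913, 1051, 41, 139, 0, 28635031, 49620143, 821, 223441, 457, 499, 1031, 13, 11, 211, 6217, 151, 7, 33113, 43, 19, 5, 0, 19, 97, 0, 3148333,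 17401, 8006893, 13, 71, 16069, 0, 9343, 509, 859, 127, 401, 7, 200723, 19, 11, 239, 0, 761, 11, 29, 619, 23, 37, 0, 13, 1201, 1453, 0, 63853, 0, 11, 0, 1979, 390289, 286499, 1459, 6563, 14826731, 0, 0, 107, 11, 11, 1163, 163, 101, 6317, 82997, 29, 59, 13, 23, 24247, 7, 0, 4909, 155399, 977, 11, 17, 866003, 354097, 131, 701, 11, 19, 0, 0, 0, 11, 28149967, 17086543, 174257, 8893, 5, 216373, 13, 29, 577, 17, 60161, 7, 47, 41, 19, 11, 10477, 0, 83, 0, 257, 0, 0, 13, 0, 323467, 37, 68443, 33914219, 23, 0, 229, 7, 97, 7283, 101, 163, 5179513, 0, 179623, 59, 277, 61, 31, 0, 532919, 1951, 73939, 0, 2243, 179, 149, 79, 1109, 11, 1733, 211, 17, 11, 167, 139, 139, 0, 173, 113, 677, 29, 7, 47, 0, 11, 11, 53, 397, 7, 0, 251, 277, 0, 5, 61, 11, 107, 0, 398863, 129917, 859, 61, 7, 0, 19, 0, 47, 23, 29, 7, 47, 13, 29, 9133, 37, 41, 3727, 79, 0, 31, 43, 103, 41, 11, 733177, 5569, 239, 197, 53, 47, 47, 0, 229, 5, 3581, 37, 1619, 0, 29, 53, 1289, 79, 137, 101, 41, 0, 2451781, 53, 929, 0, 31, 7,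 229, 5, 263, 113, 11, 107, 17737, 0, 0] _ (by decide +kernel) (by decide +kernel) fer_2652 (by decide +kernel)

end Pool.Agent.X33.Z4722
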