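import Pool.Agent.X33.Z4722.C14

set_option autoImplicit false
set_option maxRecDepth 100000

/-! Certificates for `(k + 1) ^ φ(4722 - k) + k` with `3219 ≤ k < 4722`. -/

namespace Pool.Agent.X33.Z4722

theorem f3226 : fk 4722 3226 15 = true := by decide +kernel
theorem f3228 : fk 4722 3228 12 = true := by decide +kernel
theorem f3231 : fk 4722 3231 20 = true := by decide +kernel
theorem f3239 : fk 4722 3239 34 = true := by decide +kernel
theorem f3246 : fk 4722 3246 11 = true := by decide +kernel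
theorem f3250 : fk 4722 3250 17 = true := by decide +kernel
theorem f3253 : fk 4722 3253 31 = true := by decide +kernel
theorem f3255 : fk 4722 3255 23 = true := by decide +kernel
theorem f3262 : fk 4722 3262 14 = true := by decide +kernel
theorem f3275 : fk 4722 3275 33 = true := by decide +kernel
theorem f3287 : fk 4722 3287 22 = true := by decide +kernel
theorem f3293 : fk 4722 3293 33 = true := by decide +kernel
theorem f3304 : fk 4722 3304 17 = true := by decide +kernel
theorem f3306 : fk 4722 3306 11 = true := by decide +kernel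
theorem f3309 : fk 4722 3309 22 = true := by decide +kernel
theorem f3317 : fk 4722 3317 26 = true := by decide +kernel
theorem f3331 : fk 4722 3331 30 = true := by decide +kernel
theorem f3336 : fk 4722 3336 9 = true := by decide +kernel
theorem f3337 : fk 4722 3337 26 = true := by decide +kernel
theorem f3347 : fk 4722 3347 23 = true := by decide +kernel
theorem f3348 : fk 4722 3348 11 = true := by decide +kernel
theorem f3351 : fk 4722 3351 21 = true := by decide +kernel
theorem f3372 : fk 4722 3372 9 = true := by decide +kernel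
theorem f3375 : fk 4722 3375 21 = true := by decide +kernel
theorem f3380 : fk 4722 3380 14 = true := by decide +kernel
theorem f3381 : fk 4722 3381 21 = true := by decide +kernel
theorem f3401 : fk 4722 3401 31 = true := by decide +kernel
theorem f3422 : fk 4722 3422 12 = true := by decide +kernel
theorem f3446 : fk 4722 3446 13 = true := by decide +kernel
theorem f3448 : fk 4722 3448 12 = true := by decide +kernel
theorem f3454 : fk 4722 3454 15 = true := by decide +kernel
theorem f3458 : fk 4722 3458 15 = true := by decide +kernel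
theorem f3460 : fk 4722 3460 15 = true := by decide +kernel
theorem f3464 : fk 4722 3464 14 = true := by decide +kernel
theorem f3465 : fk 4722 3465 20 = true := by decide +kernel
theorem f3483 : fk 4722 3483 16 = true := by decide +kernel
theorem f3485 : fk 4722 3485 29 = true := by decide +kernel
theorem f3486 : fk 4722 3486 10 = true := by decide +kernel
theorem f3494 : fk 4722 3494 15 = true := by decide +kernel
theorem f3497 : fk 4722 3497 20 = true := by decide +kernel
theorem f3498 : fk 4722 3498 9 = true := by decide +kernel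
theorem f3501 : fk 4722 3501 17 = true := by decide +kernel
theorem f3512 : fk 4722 3512 11 = true := by decide +kernel
theorem f3515 : fk 4722 3515 26 = true := by decide +kernel
theorem f3522 : fk 4722 3522 8 = true := by decide +kernel
theorem f3523 : fk 4722 3523 25 = true := by decide +kernel
theorem f3528 : fk 4722 3528 10 = true := by decide +kernel
theorem f3539 : fk 4722 3539 22 = true := by decide +kernel
theorem f3561 : fk 4722 3561 18 = true := by decide +kernel
theorem f3583 : fk 4722 3583 25 = true := by decide +kernel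
theorem f3591 : fk 4722 3591 16 = true := by decide +kernel
theorem f3592 : fk 4722 3592 11 = true := by decide +kernel
theorem f3600 : fk 4722 3600 8 = true := by decide +kernel
theorem f3601 : fk 4722 3601 25 = true := by decide +kernel
theorem f3602 : fk 4722 3602 9 = true := by decide +kernel
theorem f3603 : fk 4722 3603 18 = true := by decide +kernel
theorem f3606 : fk 4722 3606 9 = true := by decide +kernel
theorem f3607 : fk 4722 3607 21 = true := by decide +kernel
theorem f3624 : fk 4722 3624 9 = true := by decide +kernel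
theorem f3629 : fk 4722 3629 26 = true := by decide +kernel
theorem f3630 : fk 4722 3630 7 = true := by decide +kernel
theorem f3633 : fk 4722 3633 16 = true := by decide +kernel
theorem f3637 : fk 4722 3637 17 = true := by decide +kernel
theorem f3638 : fk 4722 3638 13 = true := by decide +kernel
theorem f3640 : fk 4722 3640 13 = true := by decide +kernel
theorem f3656 : fk 4722 3656 12 = true := by decide +kernel
theorem f3661 : fk 4722 3661 25 = true := by decide +kernel
theorem f3663 : fk 4722 3663 17 = true := by decide +kernel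
theorem f3665 : fk 4722 3665 21 = true := by decide +kernel
theorem f3677 : fk 4722 3677 17 = true := by decide +kernel
theorem f3678 : fk 4722 3678 8 = true := by decide +kernel
theorem f3684 : fk 4722 3684 8 = true := by decide +kernel
theorem f3689 : fk 4722 3689 24 = true := by decide +kernel
theorem f3694 : fk 4722 3694 12 = true := by decide +kernel
theorem f3695 : fk 4722 3695 22 = true := by decide +kernel
theorem f3699 : fk 4722 3699 14 = true := by decide +kernel
theorem f3700 : fk 4722 3700 11 = true := by decide +kernel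
theorem f3705 : fk 4722 3705 16 = true := by decide +kernel
theorem f3707 : fk 4722 3707 16 = true := by decide +kernel
theorem f3721 : fk 4722 3721 17 = true := by decide +kernel
theorem f3737 : fk 4722 3737 19 = true := by decide +kernel
theorem f3739 : fk 4722 3739 23 = true := by decide +kernel
theorem f3742 : fk 4722 3742 8 = true := by decide +kernel
theorem f3752 : fk 4722 3752 9 = true := by decide +kernel
theorem f3757 : fk 4722 3757 18 = true := by decide +kernel
theorem f3777 : fk 4722 3777 11 = true := by decide +kernel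
theorem f3781 : fk 4722 3781 22 = true := by decide +kernel
theorem f3785 : fk 4722 3785 22 = true := by decide +kernel
theorem f3786 : fk 4722 3786 7 = true := by decide +kernel
theorem f3791 : fk 4722 3791 18 = true := by decide +kernel
theorem f3798 : fk 4722 3798 6 = true := by decide +kernel
theorem f3799 : fk 4722 3799 20 = true := by decide +kernel
theorem f3804 : fk 4722 3804 7 = true := by decide +kernel
theorem f3805 : fk 4722 3805 19 = true := by decide +kernel
theorem f3806 : fk 4722 3806 11 = true := by decide +kernel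
theorem f3807 : fk 4722 3807 12 = true := by decide +kernel
theorem f3816 : fk 4722 3816 7 = true := by decide +kernel
theorem f3822 : fk 4722 3822 6 = true := by decide +kernel
theorem f3840 : fk 4722 3840 6 = true := by decide +kernel
theorem f3847 : fk 4722 3847 14 = true := by decide +kernel
theorem f3849 : fk 4722 3849 14 = true := by decide +kernel
theorem f3851 : fk 4722 3851 19 = true := by decide +kernel
theorem f3864 : fk 4722 3864 6 = true := by decide +kernel
theorem f3865 : fk 4722 3865 20 = true := by decide +kernel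
theorem f3866 : fk 4722 3866 10 = true := by decide +kernel
theorem f3886 : fk 4722 3886 9 = true := by decide +kernel
theorem f3908 : fk 4722 3908 9 = true := by decide +kernel
theorem f3918 : fk 4722 3918 7 = true := by decide +kernel
theorem f3930 : fk 4722 3930 6 = true := by decide +kernel
theorem f3934 : fk 4722 3934 10 = true := by decide +kernel
theorem f3939 : fk 4722 3939 12 = true := by decide +kernel
theorem f3945 : fk 4722 3945 11 = true := by decide +kernel
theorem f3958 : fk 4722 3958 9 = true := by decide +kernel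
theorem f3963 : fk 4722 3963 11 = true := by decide +kernel
theorem f3966 : fk 4722 3966 6 = true := by decide +kernel
theorem f3978 : fk 4722 3978 6 = true := by decide +kernel
theorem f3988 : fk 4722 3988 9 = true := by decide +kernel
theorem f3990 : fk 4722 3990 6 = true := by decide +kernel
theorem f4001 : fk 4722 4001 15 = true := by decide +kernel
theorem f4011 : fk 4722 4011 11 = true := by decide +kernel
theorem f4012 : fk 4722 4012 7 = true := by decide +kernel
theorem f4022 : fk 4722 4022 6 = true := by decide +kernel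
theorem f4029 : fk 4722 4029 9 = true := by decide +kernel
theorem f4032 : fk 4722 4032 5 = true := by decide +kernel
theorem f4051 : fk 4722 4051 15 = true := by decide +kernel
theorem f4056 : fk 4722 4056 6 = true := by decide +kernel
theorem f4057 : fk 4722 4057 11 = true := by decide +kernel
theorem f4068 : fk 4722 4068 6 = true := by decide +kernel
theorem f4069 : fk 4722 4069 16 = true := by decide +kernel
theorem f4070 : fk 4722 4070 8 = true := by decide +kernel
theorem f4077 : fk 4722 4077 8 = true := by decide +kernel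
theorem f4081 : fk 4722 4081 15 = true := by decide +kernel
theorem f4082 : fk 4722 4082 6 = true := by decide +kernel
theorem f4095 : fk 4722 4095 9 = true := by decide +kernel
theorem f4103 : fk 4722 4103 15 = true := by decide +kernel
theorem f4104 : fk 4722 4104 5 = true := by decide +kernel
theorem f4110 : fk 4722 4110 5 = true := by decide +kernel
theorem f4115 : fk 4722 4115 15 = true := by decide +kernel
theorem f4125 : fk 4722 4125 10 = true := by decide +kernel
theorem f4133 : fk 4722 4133 13 = true := by decide +kernel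
theorem f4139 : fk 4722 4139 13 = true := by decide +kernel
theorem f4142 : fk 4722 4142 6 = true := by decide +kernel
theorem f4146 : fk 4722 4146 5 = true := by decide +kernel
theorem f4158 : fk 4722 4158 5 = true := by decide +kernel
theorem f4162 : fk 4722 4162 5 = true := by decide +kernel
theorem f4172 : fk 4722 4172 5 = true := by decide +kernel
theorem f4186 : fk 4722 4186 7 = true := by decide +kernel
theorem f4190 : fk 4722 4190 6 = true := by decide +kernel
theorem f4194 : fk 4722 4194 4 = true := by decide +kernel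
theorem f4200 : fk 4722 4200 4 = true := by decide +kernel
theorem f4202 : fk 4722 4202 5 = true := by decide +kernel
theorem f4224 : fk 4722 4224 4 = true := by decide +kernel
theorem f4234 : fk 4722 4234 6 = true := by decide +kernel
theorem f4237 : fk 4722 4237 10 = true := by decide +kernel
theorem f4249 : fk 4722 4249 10 = true := by decide +kernel
theorem f4250 : fk 4722 4250 6 = true := by decide +kernel
theorem f4255 : fk 4722 4255 11 = true := by decide +kernel
theorem f4265 : fk 4722 4265 11 = true := by decide +kernel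
theorem f4284 : fk 4722 4284 4 = true := by decide +kernel
theorem f4307 : fk 4722 4307 8 = true := by decide +kernel
theorem f4311 : fk 4722 4311 7 = true := by decide +kernel
theorem f4312 : fk 4722 4312 4 = true := by decide +kernel
theorem f4317 : fk 4722 4317 6 = true := by decide +kernel
theorem f4329 : fk 4722 4329 7 = true := by decide +kernel
theorem f4332 : fk 4722 4332 3 = true := by decide +kernel
theorem f4339 : fk 4722 4339 10 = true := by decide +kernel
theorem f4342 : fk 4722 4342 4 = true := by decide +kernel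
theorem f4345 : fk 4722 4345 8 = true := by decide +kernel
theorem f4346 : fk 4722 4346 5 = true := by decide +kernel
theorem f4348 : fk 4722 4348 4 = true := by decide +kernel
theorem f4371 : fk 4722 4371 6 = true := by decide +kernel
theorem f4373 : fk 4722 4373 9 = true := by decide +kernel
theorem f4389 : fk 4722 4389 6 = true := by decide +kernel
theorem f4400 : fk 4722 4400 4 = true := by decide +kernel
theorem f4405 : fk 4722 4405 8 = true := by decide +kernel
theorem f4409 : fk 4722 4409 8 = true := by decide +kernel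
theorem f4415 : fk 4722 4415 8 = true := by decide +kernel
theorem f4433 : fk 4722 4433 7 = true := by decide +kernel
theorem f4442 : fk 4722 4442 3 = true := by decide +kernel
theorem f4446 : fk 4722 4446 3 = true := by decide +kernel
theorem f4449 : fk 4722 4449 4 = true := by decide +kernel
theorem f4453 : fk 4722 4453 7 = true := by decide +kernel
theorem f4455 : fk 4722 4455 5 = true := by decide +kernel
theorem f4457 : fk 4722 4457 5 = true := by decide +kernel
theorem f4465 : fk 4722 4465 7 = true := by decide +kernel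
theorem f4474 : fk 4722 4474 3 = true := by decide +kernel
theorem f4476 : fk 4722 4476 2 = true := by decide +kernel
theorem f4477 : fk 4722 4477 4 = true := by decide +kernel
theorem f4487 : fk 4722 4487 5 = true := by decide +kernel
theorem f4510 : fk 4722 4510 3 = true := by decide +kernel
theorem f4546 : fk 4722 4546 2 = true := by decide +kernel
theorem f4547 : fk 4722 4547 3 = true := by decide +kernel
theorem f4555 : fk 4722 4555 4 = true := by decide +kernel
theorem f4561 : fk 4722 4561 4 = true := by decide +kernel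
theorem f4565 : fk 4722 4565 4 = true := by decide +kernel
theorem f4572 : fk 4722 4572 1 = true := by decide +kernel
theorem f4575 : fk 4722 4575 2 = true := by decide +kernel
theorem f4584 : fk 4722 4584 2 = true := by decide +kernel
theorem f4588 : fk 4722 4588 2 = true := by decide +kernel
theorem f4590 : fk 4722 4590 1 = true := by decide +kernel
theorem f4597 : fk 4722 4597 3 = true := by decide +kernel
theorem f4598 : fk 4722 4598 2 = true := by decide +kernel
theorem f4599 : fk 4722 4599 2 = true := by decide +kernel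
theorem f4606 : fk 4722 4606 2 = true := by decide +kernel
theorem f4621 : fk 4722 4621 3 = true := by decide +kernel
theorem f4629 : fk 4722 4629 2 = true := by decide +kernel
theorem f4633 : fk 4722 4633 3 = true := by decide +kernel
theorem f4657 : fk 4722 4657 2 = true := by decide +kernel
theorem f4669 : fk 4722 4669 2 = true := by decide +kernel
theorem f4673 : fk 4722 4673 1 = true := by decide +kernel
theorem f4681 : fk 4722 4681 1 = true := by decide +kernel
theorem f4688 : fk 4722 4688 1 = true := by decide +kernel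
theorem f4689 : fk 4722 4689 1 = true := by decide +kernel
theorem f4696 : fk 4722 4696 1 = true := by decide +kernel
theorem f4701 : fk 4722 4701 1 = true := by decide +kernel
theorem f4703 : fk 4722 4703 1 = true := by decide +kernel
theorem f4713 : fk 4722 4713 1 = true := by decide +kernel

theorem fer_3219 : ∀ k ∈ [3226, 3228, 3231, 3239, 3246, 3250, 3253, 3255, 3262, 3275, 3287, 3293, 3304, 3306, 3309, 3317, 3331, 3336, 3337, 3347, 3348, 3351, 3372, 3375, 3380, 3381, 3401, 3422, 3446, 3448, 3454, 3458, 3460, 3464, 3465, 3483, 3485, 3486, 3494, 3497, 3498, 3501, 3512, 3515, 3522, 3523, 3528, 3539, 3561, 3583, 3591, 3592, 3600, 3601, 3602, 3603, 3606, 3607, 3624, 3629, 3630, 3633, 3637, 3638, 3640, 3656, 3661, 3663, 3665, 3677, 3678, 3684, 3689, 3694, 3695, 3699, 3700, 3705, 3707, 3721, 3737, 3739, 3742, 3752, 3757, 3777, 3781, 3785, 3786, 3791, 3798, 3799, 3804, 3805, 3806, 3807, 3816, 3822, 3840, 3847, 3849, 3851, 3864, 3865, 3866, 3886, 3908, 3918, 3930, 3934,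 3939, 3945, 3958, 3963, 3966, 3978, 3988, 3990, 4001, 4011, 4012, 4022, 4029, 4032, 4051, 4056, 4057, 4068, 4069, 4070, 4077, 4081, 4082, 4095, 4103, 4104, 4110, 4115, 4125, 4133, 4139, 4142, 4146, 4158, 4162, 4172, 4186, 4190, 4194, 4200, 4202, 4224, 4234, 4237, 4249, 4250, 4255, 4265, 4284, 4307, 4311, 4312, 4317, 4329, 4332, 4339, 4342, 4345, 4346, 4348, 4371, 4373, 4389, 4400, 4405, 4409, 4415, 4433, 4442, 4446, 4449, 4453, 4455, 4457, 4465, 4474, 4476, 4477, 4487, 4510, 4546, 4547, 4555, 4561, 4565, 4572, 4575, 4584, 4588, 4590, 4597, 4598, 4599, 4606, 4621, 4629, 4633, 4657, 4669, 4673, 4681, 4688, 4689, 4696, 4701, 4703, 4713], ¬ (num 4722 k).Prime :=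
  cons_ok (fk_spec _ _ _ f3226) <|
  cons_ok (fk_spec _ _ _ f3228) <|
  cons_ok (fk_spec _ _ _ f3231) <|
  cons_ok (fk_spec _ _ _ f3239) <|
  cons_ok (fk_spec _ _ _ f3246) <|
  cons_ok (fk_spec _ _ _ f3250) <|
  cons_ok (fk_spec _ _ _ f3253) <|
  cons_ok (fk_spec _ _ _ f3255) <|
  cons_ok (fk_spec _ _ _ f3262) <|
  cons_ok (fk_spec _ _ _ f3275) <|
  cons_ok (fk_spec _ _ _ f3287) <|
  cons_ok (fk_spec _ _ _ f3293) <|
  cons_ok (fk_spec _ _ _ f3304) <|
  cons_ok (fk_spec _ _ _ f3306) <|
  cons_ok (fk_spec _ _ _ f3309) <|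
  cons_ok (fk_spec _ _ _ f3317) <|
  cons_ok (fk_spec _ _ _ f3331) <|
  cons_ok (fk_spec _ _ _ f3336) <|
  cons_ok (fk_spec _ _ _ f3337) <|
  cons_ok (fk_spec _ _ _ f3347) <|
  cons_ok (fk_spec _ _ _ f3348) <|
  cons_ok (fk_spec _ _ _ f3351) <|
  cons_ok (fk_spec _ _ _ f3372) <|
  cons_ok (fk_spec _ _ _ f3375) <|
  cons_ok (fk_spec _ _ _ f3380) <|
  cons_ok (fk_spec _ _ _ f3381) <|
  cons_ok (fk_spec _ _ _ f3401) <|
  cons_ok (fk_spec _ _ _ f3422) <|
  cons_ok (fk_spec _ _ _ f3446) <|
  cons_ok (fk_spec _ _ _ f3448) <|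
  cons_ok (fk_spec _ _ _ f3454) <|
  cons_ok (fk_spec _ _ _ f3458) <|
  cons_ok (fk_spec _ _ _ f3460) <|
  cons_ok (fk_spec _ _ _ f3464) <|
  cons_ok (fk_spec _ _ _ f3465) <|
  cons_ok (fk_spec _ _ _ f3483) <|
  cons_ok (fk_spec _ _ _ f3485) <|
  cons_ok (fk_spec _ _ _ f3486) <|
  cons_ok (fk_spec _ _ _ f3494) <|
  cons_ok (fk_spec _ _ _ f3497) <|
  cons_ok (fk_spec _ _ _ f3498) <|
  cons_ok (fk_spec _ _ _ f3501) <|
  cons_ok (fk_spec _ _ _ f3512) <|
  cons_ok (fk_spec _ _ _ f3515) <|
  cons_ok (fk_spec _ _ _ f3522) <|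
  cons_ok (fk_spec _ _ _ f3523) <|
  cons_ok (fk_spec _ _ _ f3528) <|
  cons_ok (fk_spec _ _ _ f3539) <|
  cons_ok (fk_spec _ _ _ f3561) <|
  cons_ok (fk_spec _ _ _ f3583) <|
  cons_ok (fk_spec _ _ _ f3591) <|
  cons_ok (fk_spec _ _ _ f3592) <|
  cons_ok (fk_spec _ _ _ f3600) <|
  cons_ok (fk_spec _ _ _ f3601) <|
  cons_ok (fk_spec _ _ _ f3602) <|
  cons_ok (fk_spec _ _ _ f3603) <|
  cons_ok (fk_spec _ _ _ f3606) <|
  cons_ok (fk_spec _ _ _ f3607) <|
  cons_ok (fk_spec _ _ _ f3624) <|
  cons_ok (fk_spec _ _ _ f3629) <|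
  cons_ok (fk_spec _ _ _ f3630) <|
  cons_ok (fk_spec _ _ _ f3633) <|
  cons_ok (fk_spec _ _ _ f3637) <|
  cons_ok (fk_spec _ _ _ f3638) <|
  cons_ok (fk_spec _ _ _ f3640) <|
  cons_ok (fk_spec _ _ _ f3656) <|
  cons_ok (fk_spec _ _ _ f3661) <|
  cons_ok (fk_spec _ _ _ f3663) <|
  cons_ok (fk_spec _ _ _ f3665) <|
  cons_ok (fk_spec _ _ _ f3677) <|
  cons_ok (fk_spec _ _ _ f3678) <|
  cons_ok (fk_spec _ _ _ f3684) <|
  cons_ok (fk_spec _ _ _ f3689) <|
  cons_ok (fk_spec _ _ _ f3694) <|
  cons_ok (fk_spec _ _ _ f3695) <|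
  cons_ok (fk_spec _ _ _ f3699) <|
  cons_ok (fk_spec _ _ _ f3700) <|
  cons_ok (fk_spec _ _ _ f3705) <|
  cons_ok (fk_spec _ _ _ f3707) <|
  cons_ok (fk_spec _ _ _ f3721) <|
  cons_ok (fk_spec _ _ _ f3737) <|
  cons_ok (fk_spec _ _ _ f3739) <|
  cons_ok (fk_spec _ _ _ f3742) <|
  cons_ok (fk_spec _ _ _ f3752) <|
  cons_ok (fk_spec _ _ _ f3757) <|
  cons_ok (fk_spec _ _ _ f3777) <|
  cons_ok (fk_spec _ _ _ f3781) <|
  cons_ok (fk_spec _ _ _ f3785) <|
  cons_ok (fk_spec _ _ _ f3786) <|
  cons_ok (fk_spec _ _ _ f3791) <|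
  cons_ok (fk_spec _ _ _ f3798) <|
  cons_ok (fk_spec _ _ _ f3799) <|
  cons_ok (fk_spec _ _ _ f3804) <|
  cons_ok (fk_spec _ _ _ f3805) <|
  cons_ok (fk_spec _ _ _ f3806) <|
  cons_ok (fk_spec _ _ _ f3807) <|
  cons_ok (fk_spec _ _ _ f3816) <|
  cons_ok (fk_spec _ _ _ f3822) <|
  cons_ok (fk_spec _ _ _ f3840) <|
  cons_ok (fk_spec _ _ _ f3847) <|
  cons_ok (fk_spec _ _ _ f3849) <|
  cons_ok (fk_spec _ _ _ f3851) <|
  cons_ok (fk_spec _ _ _ f3864) <|
  cons_ok (fk_spec _ _ _ f3865) <|
  cons_ok (fk_spec _ _ _ f3866) <|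
  cons_ok (fk_spec _ _ _ f3886) <|
  cons_ok (fk_spec _ _ _ f3908) <|
  cons_ok (fk_spec _ _ _ f3918) <|
  cons_ok (fk_spec _ _ _ f3930) <|
  cons_ok (fk_spec _ _ _ f3934) <|
  cons_ok (fk_spec _ _ _ f3939) <|
  cons_ok (fk_spec _ _ _ f3945) <|
  cons_ok (fk_spec _ _ _ f3958) <|
  cons_ok (fk_spec _ _ _ f3963) <|
  cons_ok (fk_spec _ _ _ f3966) <|
  cons_ok (fk_spec _ _ _ f3978) <|
  cons_ok (fk_spec _ _ _ f3988) <|
  cons_ok (fk_spec _ _ _ f3990) <|
  cons_ok (fk_spec _ _ _ f4001) <|
  cons_ok (fk_spec _ _ _ f4011) <|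
  cons_ok (fk_spec _ _ _ f4012) <|
  cons_ok (fk_spec _ _ _ f4022) <|
  cons_ok (fk_spec _ _ _ f4029) <|
  cons_ok (fk_spec _ _ _ f4032) <|
  cons_ok (fk_spec _ _ _ f4051) <|
  cons_ok (fk_spec _ _ _ f4056) <|
  cons_ok (fk_spec _ _ _ f4057) <|
  cons_ok (fk_spec _ _ _ f4068) <|
  cons_ok (fk_spec _ _ _ f4069) <|
  cons_ok (fk_spec _ _ _ f4070) <|
  cons_ok (fk_spec _ _ _ f4077) <|
  cons_ok (fk_spec _ _ _ f4081) <|
  cons_ok (fk_spec _ _ _ f4082) <|
  cons_ok (fk_spec _ _ _ f4095) <|
  cons_ok (fk_spec _ _ _ f4103) <|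
  cons_ok (fk_spec _ _ _ f4104) <|
  cons_ok (fk_spec _ _ _ f4110) <|
  cons_ok (fk_spec _ _ _ f4115) <|
  cons_ok (fk_spec _ _ _ f4125) <|
  cons_ok (fk_spec _ _ _ f4133) <|
  cons_ok (fk_spec _ _ _ f4139) <|
  cons_ok (fk_spec _ _ _ f4142) <|
  cons_ok (fk_spec _ _ _ f4146) <|
  cons_ok (fk_spec _ _ _ f4158) <|
  cons_ok (fk_spec _ _ _ f4162) <|
  cons_ok (fk_spec _ _ _ f4172) <|
  cons_ok (fk_spec _ _ _ f4186) <|
  cons_ok (fk_spec _ _ _ f4190) <|
  cons_ok (fk_spec _ _ _ f4194) <|
  cons_ok (fk_spec _ _ _ f4200) <|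
  cons_ok (fk_spec _ _ _ f4202) <|
  cons_ok (fk_spec _ _ _ f4224) <|
  cons_ok (fk_spec _ _ _ f4234) <|
  cons_ok (fk_spec _ _ _ f4237) <|
  cons_ok (fk_spec _ _ _ f4249) <|
  cons_ok (fk_spec _ _ _ f4250) <|
  cons_ok (fk_spec _ _ _ f4255) <|
  cons_ok (fk_spec _ _ _ f4265) <|
  cons_ok (fk_spec _ _ _ f4284) <|
  cons_ok (fk_spec _ _ _ f4307) <|
  cons_ok (fk_spec _ _ _ f4311) <|
  cons_ok (fk_spec _ _ _ f4312) <|
  cons_ok (fk_spec _ _ _ f4317) <|
  cons_ok (fk_spec _ _ _ f4329) <|
  cons_ok (fk_spec _ _ _ f4332) <|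
  cons_ok (fk_spec _ _ _ f4339) <|
  cons_ok (fk_spec _ _ _ f4342) <|
  cons_ok (fk_spec _ _ _ f4345) <|
  cons_ok (fk_spec _ _ _ f4346) <|
  cons_ok (fk_spec _ _ _ f4348) <|
  cons_ok (fk_spec _ _ _ f4371) <|
  cons_ok (fk_spec _ _ _ f4373) <|
  cons_ok (fk_spec _ _ _ f4389) <|
  cons_ok (fk_spec _ _ _ f4400) <|
  cons_ok (fk_spec _ _ _ f4405) <|
  cons_ok (fk_spec _ _ _ f4409) <|
  cons_ok (fk_spec _ _ _ f4415) <|
  cons_ok (fk_spec _ _ _ f4433) <|
  cons_ok (fk_spec _ _ _ f4442) <|
  cons_ok (fk_spec _ _ _ f4446) <|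
  cons_ok (fk_spec _ _ _ f4449) <|
  cons_ok (fk_spec _ _ _ f4453) <|
  cons_ok (fk_spec _ _ _ f4455) <|
  cons_ok (fk_spec _ _ _ f4457) <|
  cons_ok (fk_spec _ _ _ f4465) <|
  cons_ok (fk_spec _ _ _ f4474) <|
  cons_ok (fk_spec _ _ _ f4476) <|
  cons_ok (fk_spec _ _ _ f4477) <|
  cons_ok (fk_spec _ _ _ f4487) <|
  cons_ok (fk_spec _ _ _ f4510) <|
  cons_ok (fk_spec _ _ _ f4546) <|
  cons_ok (fk_spec _ _ _ f4547) <|
  cons_ok (fk_spec _ _ _ f4555) <|
  cons_ok (fk_spec _ _ _ f4561) <|
  cons_ok (fk_spec _ _ _ f4565) <|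
  cons_ok (fk_spec _ _ _ f4572) <|
  cons_ok (fk_spec _ _ _ f4575) <|
  cons_ok (fk_spec _ _ _ f4584) <|
  cons_ok (fk_spec _ _ _ f4588) <|
  cons_ok (fk_spec _ _ _ f4590) <|
  cons_ok (fk_spec _ _ _ f4597) <|
  cons_ok (fk_spec _ _ _ f4598) <|
  cons_ok (fk_spec _ _ _ f4599) <|
  cons_ok (fk_spec _ _ _ f4606) <|
  cons_ok (fk_spec _ _ _ f4621) <|
  cons_ok (fk_spec _ _ _ f4629) <|
  cons_ok (fk_spec _ _ _ f4633) <|
  cons_ok (fk_spec _ _ _ f4657) <|
  cons_ok (fk_spec _ _ _ f4669) <|
  cons_ok (fk_spec _ _ _ f4673) <|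
  cons_ok (fk_spec _ _ _ f4681) <|
  cons_ok (fk_spec _ _ _ f4688) <|
  cons_ok (fk_spec _ _ _ f4689) <|
  cons_ok (fk_spec _ _ _ f4696) <|
  cons_ok (fk_spec _ _ _ f4701) <|
  cons_ok (fk_spec _ _ _ f4703) <|
  cons_ok (fk_spec _ _ _ f4713) <|
  nil_ok 4722

theorem rng_3219 : ∀ k, 3219 ≤ k → k < 4722 → ¬ (num 4722 k).Prime :=
  range_of 4722 3219 4722 [19, 337, 32986999, 37, 7, 29, 10456637, 0, 43, 0, 11, 11, 0, 19, 181, 71, 3491, 5, 240271, 127, 0, 11, 911, 271, 41, 465893, 15497, 0, 61, 17, 4933, 0, 5, 41269, 0, 29, 0, 1163, 26141, 67, 19639681, 2179, 311, 0, 59, 13, 17, 47, 37, 30559, 11, 113, 5, 8741, 11, 15511, 0, 227, 1009, 31, 1949, 11, 271, 29, 11344427, 29, 32657887, 1069921, 0, 89597, 83243, 53, 83, 59, 0, 191, 179, 79, 48313, 31, 79423, 397, 31, 139, 137, 0, 34281697, 0, 38891, 19433, 0, 499, 293, 29, 3541, 7, 167, 503, 0, 1657, 196081, 179, 19, 173, 23, 1097, 293, 4957, 1381, 7, 151241, 11, 0, 2543, 17, 31, 208441, 0, 0, 13, 149, 23, 37, 7, 42929, 2411,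 814003, 11, 0, 0, 7, 17, 0, 786703, 17, 23, 29, 5, 29, 1823, 179, 229, 79, 12619, 83, 64577, 19, 40658561, 72053, 4789, 61, 167, 25127, 0, 28773001, 89, 0, 53, 7, 89, 167, 0, 0, 61, 113, 11, 32065063, 59, 9307633, 163, 79, 11, 5, 229, 61031, 31, 607, 61, 19, 277, 211, 761, 0, 29, 79, 1913, 1137817, 15973, 11, 981653, 53, 5215303, 2257693, 7, 4937, 131, 191, 11, 2161, 11, 17, 383, 17, 0, 271, 23, 31, 41, 4603, 1162277, 227, 1439, 5, 19, 7, 181, 5776871, 5, 769, 83, 829, 7, 1767833, 83, 17, 859, 3109, 0, 7, 0, 91631, 26717849, 19, 20753, 72353, 0, 29, 132961, 131, 0, 939007, 0, 83, 11, 487, 0, 0, 919, 73, 1783, 17, 19, 6709, 17, 11, 43767677, 283, 199, 532757, 331, 1021, 17159143, 8101, 65677, 0, 11, 0, 0, 3491, 8887, 41, 23, 5, 19, 29, 0, 661, 263, 0, 0, 53, 11, 0, 71, 7, 101, 1973, 23, 53, 19, 127, 7, 11, 0, 71, 3056789, 0, 47, 22328077, 61, 9419, 71, 59, 0, 0, 7, 63419, 10211, 48857, 0, 23, 157, 71, 81677, 13, 74323, 97, 19, 167, 53, 0, 28517, 101, 29, 9221, 1049, 7,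 19, 19, 151, 11, 431, 5, 239, 43, 347, 14887, 103, 53, 1327, 7, 29, 0, 23, 2341, 199, 19, 7, 787, 53, 9689, 250583, 5, 29, 223, 281, 6173, 11173, 11, 6361, 227, 23, 11, 14801659, 0, 83, 23, 61, 7, 17, 53, 61, 0, 0, 199, 11, 157, 5, 20551, 947183, 11, 0, 0, 0, 0, 11, 17, 0, 0, 7, 4436581, 11, 13, 62137, 73, 11, 16963, 11, 17891, 29, 28506197, 167, 11, 7, 83, 0, 25314461, 11, 103, 13, 0, 0, 5, 11, 0, 659, 1063, 653, 0, 0, 17, 0, 113363, 59, 337, 53, 23, 227, 52859, 14387, 11, 9829, 38317, 149, 37, 11, 337, 0, 383, 11, 163981, 11, 0, 257, 0, 61, 0, 3593, 23, 109, 8014631, 11, 5, 23, 139, 461, 5059, 5, 0, 0, 431, 270287, 19, 449, 149, 0, 103, 100769, 43, 861013, 0, 1483, 5, 37761271, 11, 0, 0, 40111, 59, 11, 0, 0, 47, 13, 529747, 11, 0, 241, 0, 643, 11, 173, 1747, 107, 1429, 277, 8269, 5, 137, 71, 79, 11, 0, 89, 857, 61, 43, 11, 197, 163, 499, 67, 5, 19, 439, 1009, 11, 34031, 0, 4021, 0, 37, 101, 0, 101, 17, 10601, 521, 29, 1217, 43, 241, 5, 0, 1907, 12527, 19, 47, 0, 49367,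 166931, 67, 5, 7, 43, 12927269, 19, 31, 13, 11, 7, 19, 1721, 157, 43, 36621317, 659, 199, 0, 9207389, 29, 8893, 0, 4799, 100801, 101, 0, 0, 34939, 53681, 719, 311, 0, 29, 13, 7823, 17, 5, 71, 0, 0, 850351, 11, 137, 11, 0, 0, 0, 0, 19, 17, 41201, 5, 113, 59, 101, 499, 0, 224177, 7, 233, 53, 563, 0, 84631, 1597, 11, 277, 907, 31, 41, 809, 7127, 7, 229, 1103, 29, 5, 367, 37, 9811, 0, 241, 5689, 173, 17, 55603, 61, 0, 103, 0, 79, 0, 19, 619, 463, 52363, 11, 257, 11, 19, 7, 67, 34487, 29, 0, 0, 0, 11, 32687, 421, 83, 257, 19, 20381941, 311, 5607247, 3301, 42359, 419329, 19, 17, 149, 15083, 331, 211, 38153, 0, 73, 32191, 11, 11, 29, 293, 6679, 1303, 7, 40759, 13, 23, 3271, 11, 2219513, 40153, 4073, 140143, 41, 23, 59, 0, 149, 389, 5, 167, 11, 128431, 23, 251, 2477, 0, 167, 23, 3164123, 85549, 7, 59, 37, 616843, 19, 17, 419, 0, 751, 3593, 157889, 0, 317, 83, 1384843, 89, 0, 11, 3617, 1538473, 43669, 7, 0, 329711, 523, 89, 13, 151, 11, 311, 29, 421, 97, 5, 2143, 0, 21851, 101,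 4250809, 101, 0, 31, 17, 0, 3541, 49681, 41236777, 433093, 5, 599, 198337, 40879, 1187, 541, 11, 0, 7, 337, 143609, 1877, 59, 373, 6673, 7, 1811, 0, 1291, 0, 9738049, 61, 7177, 269, 43, 17, 139, 3371, 71, 47, 0, 19, 3847, 971, 6101, 739, 37, 34649, 173219, 11, 0, 0, 17, 7, 10711, 101, 149, 58921, 13147, 1429, 7, 0, 5939, 571, 9497, 6257, 1607, 7, 0, 349, 5, 0, 11, 2437, 47, 5, 37, 137, 11, 19, 19, 7, 79, 11, 31, 10909, 439, 191, 89, 11, 0, 227, 31, 11, 175699, 0, 0, 1873, 9901, 37, 227, 199, 7, 17, 11, 31147, 23, 0, 0, 0, 66931, 41641, 37, 2351, 1951, 541, 0, 19, 4993, 47, 0, 0, 10613, 7, 23, 337, 383, 521, 1059137, 139, 5, 53, 29, 11, 0, 337, 317, 11, 211, 227, 4421, 233, 0, 0, 7, 727, 7873, 23, 11, 0, 647, 19, 83, 59, 0, 199, 67, 37, 53, 11, 56299, 79, 107609, 43, 0, 5987, 4159801, 359, 13693, 491, 11, 1231859, 0, 37, 1418687, 223, 619, 59, 0, 304067, 102461, 0, 11, 8016353, 41, 0, 47, 59, 17, 19, 5, 416441, 73, 7, 43, 5, 13, 0, 106103, 31, 43, 0, 8957653, 151, 67,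 17, 167, 12289891, 17, 107, 4234501, 0, 137, 19, 523, 11, 9319, 12874469, 367, 163, 953, 29, 17, 193, 20449309, 0, 11, 113, 853, 0, 53, 167017, 19, 0, 6329, 5, 683, 47, 9151, 0, 19, 0, 1123, 5669, 17749, 71, 39089, 41880697, 11, 7, 9547, 19, 6695699, 167, 11, 163, 7, 109507, 11, 19, 97, 83, 89, 0, 593, 19, 29, 427619, 23, 733, 5, 11, 22111, 0, 17, 5, 0, 7, 31, 708893, 11, 4449589, 11, 277, 19, 41, 29, 691, 0, 0, 108233, 7, 4234211, 18371, 0, 71, 397, 103, 11, 97327, 13, 31, 269, 431, 0, 23, 184831, 801841, 179, 19, 107, 2119643, 7, 11, 33191, 5, 407959, 167, 179, 2081, 11, 59, 19, 0, 17, 127, 343037, 17, 41, 19373, 5, 47, 23, 599, 2027639, 23293, 3307831, 11, 4723351, 836623, 97, 19, 1297, 431, 17, 19, 0, 769, 11, 233, 0, 0, 234833, 29, 109, 911, 0, 61, 38873827, 119551, 5347, 7, 14029, 79, 233, 701, 29, 3797, 0, 367, 13709, 0, 2347, 29, 2371, 11, 947, 167, 0, 27763, 439, 0, 13, 8231, 0, 0, 151, 0, 5521, 21059, 11, 11, 3313, 314933, 31, 452533, 1489, 23, 15569, 13454999,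 5, 22037, 1151, 7, 487, 19, 197, 83, 11, 17747, 0, 277579, 0, 17093, 1070567, 101, 107, 19, 173, 277, 8111, 307, 31, 3191, 308527, 31, 97, 17, 0, 17, 5, 29, 37, 131, 113591, 5, 19, 31, 103, 0, 29, 19, 67, 19, 0, 59, 11, 729511, 0, 1811, 5, 5839, 2267, 37, 0, 19, 10861, 11, 2235767, 74959, 17, 19, 337, 17, 43, 1433, 7, 588011, 941, 1109, 38772607, 1289971, 0, 83, 19, 20299211, 4373, 17, 11, 19, 7, 0, 71, 251, 1459, 0, 271, 7, 0, 557, 5, 151, 0, 19, 0, 61, 0, 23, 127, 307, 27034159, 151, 97, 67, 0, 326657, 647, 4931, 7, 29, 5, 17, 11, 0, 139, 0, 0, 7451, 11, 17, 1171, 13, 7, 131, 32621, 324451, 0, 29, 75181, 7, 9996247, 1847, 79, 11, 653, 179, 30893, 103, 13, 83, 11, 43, 373, 43, 47, 83, 11, 71, 53, 0, 5, 53, 11717, 41, 241, 5, 79, 7, 223, 269, 383, 128993, 43, 633623, 7, 17, 26205301, 23, 1433, 227, 5, 483697, 719, 11, 1288337, 229, 43, 24788807, 137, 2063, 23, 53, 19, 73, 304751, 0, 0, 547, 11, 11, 11, 3863, 19, 523, 0, 5, 197, 23023097, 23, 137, 0, 73, 223, 13, 0, 389,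 617, 19, 4013, 47, 5, 0, 11, 41, 0, 41, 5849699, 61, 1117, 7883, 3371, 28583861, 67, 0, 1097, 13, 32611, 0, 7687, 0, 5, 379, 10831, 11, 53, 23, 0, 0, 0, 32987, 5, 52069, 31, 29, 71, 0, 71, 17, 7, 19, 11, 13, 372037, 4951, 3607069, 7, 11, 53, 23, 349, 0, 53, 43, 40656977, 19, 11, 107, 40483393, 0, 3853, 3919, 3391, 0, 4513, 67, 5, 7, 11, 1486747, 23, 5, 347779, 1433, 19, 2441, 139, 311, 317269, 743177, 150659, 5, 37, 67, 53, 13, 257, 0, 41, 17, 109, 281, 29, 139, 13, 23, 163, 181, 13, 0, 241, 3739, 59, 0, 10627, 29, 5, 61, 5179, 41, 23, 0, 10559, 487, 401, 72911, 19, 33739, 0, 0, 13, 5, 139, 7, 1115743, 127, 0, 5413, 219937, 11, 7, 0, 13807, 0, 9735223, 10948387, 613, 19, 4133, 131, 17, 5, 1193, 0, 7, 199, 5, 283, 181, 2521, 3, 7] _ (by decide +kernel) (by decide +kernel) fer_3219 (by decide +kernel)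

end Pool.Agent.X33.Z4722
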