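import Pool.Agent.X33.Fer

set_option autoImplicit false
set_option maxRecDepth 100000

/-! Certificates for `(k + 1) ^ φ(4722 - k) + k` with `1 ≤ k < 228`. -/

namespace Pool.Agent.X33.Z4722

theorem f8 : fk 4722 8 15 = true := by decide +kernel
theorem f13 : fk 4722 13 33 = true := by decide +kernel
theorem f16 : fk 4722 16 18 = true := by decide +kernel
theorem f25 : fk 4722 25 34 = true := by decide +kernel
theorem f28 : fk 4722 28 23 = true := by decide +kernel
theorem f37 : fk 4722 37 39 = true := by decide +kernel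
theorem f53 : fk 4722 53 42 = true := by decide +kernel
theorem f56 : fk 4722 56 27 = true := by decide +kernel
theorem f61 : fk 4722 61 53 = true := by decide +kernel
theorem f63 : fk 4722 63 37 = true := by decide +kernel
theorem f72 : fk 4722 72 15 = true := by decide +kernel
theorem f78 : fk 4722 78 19 = true := by decide +kernel
theorem f80 : fk 4722 80 27 = true := by decide +kernel
theorem f81 : fk 4722 81 29 = true := by decide +kernel
theorem f82 : fk 4722 82 23 = true := by decide +kernel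
theorem f89 : fk 4722 89 57 = true := by decide +kernel
theorem f91 : fk 4722 91 54 = true := by decide +kernel
theorem f92 : fk 4722 92 24 = true := by decide +kernel
theorem f99 : fk 4722 99 38 = true := by decide +kernel
theorem f109 : fk 4722 109 53 = true := by decide +kernel
theorem f119 : fk 4722 119 63 = true := by decide +kernel
theorem f121 : fk 4722 121 61 = true := by decide +kernel
theorem f122 : fk 4722 122 24 = true := by decide +kernel
theorem f126 : fk 4722 126 21 = true := by decide +kernel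
theorem f129 : fk 4722 129 42 = true := by decide +kernel
theorem f132 : fk 4722 132 16 = true := by decide +kernel
theorem f134 : fk 4722 134 30 = true := by decide +kernel
theorem f148 : fk 4722 148 33 = true := by decide +kernel
theorem f151 : fk 4722 151 56 = true := by decide +kernel
theorem f153 : fk 4722 153 44 = true := by decide +kernel
theorem f156 : fk 4722 156 22 = true := by decide +kernel
theorem f160 : fk 4722 160 33 = true := by decide +kernel
theorem f162 : fk 4722 162 17 = true := by decide +kernel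
theorem f174 : fk 4722 174 23 = true := by decide +kernel
theorem f189 : fk 4722 189 45 = true := by decide +kernel
theorem f191 : fk 4722 191 64 = true := by decide +kernel
theorem f193 : fk 4722 193 58 = true := by decide +kernel
theorem f198 : fk 4722 198 21 = true := by decide +kernel
theorem f202 : fk 4722 202 27 = true := by decide +kernel
theorem f227 : fk 4722 227 52 = true := by decide +kernel

theorem fer_1 : ∀ k ∈ [8, 13, 16, 25, 28, 37, 53, 56, 61, 63, 72, 78, 80, 81, 82, 89, 91, 92, 99, 109, 119, 121, 122, 126, 129, 132, 134, 148, 151, 153, 156, 160, 162, 174, 189, 191, 193, 198, 202, 227], ¬ (num 4722 k).Prime :=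
  cons_ok (fk_spec _ _ _ f8) <|
  cons_ok (fk_spec _ _ _ f13) <|
  cons_ok (fk_spec _ _ _ f16) <|
  cons_ok (fk_spec _ _ _ f25) <|
  cons_ok (fk_spec _ _ _ f28) <|
  cons_ok (fk_spec _ _ _ f37) <|
  cons_ok (fk_spec _ _ _ f53) <|
  cons_ok (fk_spec _ _ _ f56) <|
  cons_ok (fk_spec _ _ _ f61) <|
  cons_ok (fk_spec _ _ _ f63) <|
  cons_ok (fk_spec _ _ _ f72) <|
  cons_ok (fk_spec _ _ _ f78) <|
  cons_ok (fk_spec _ _ _ f80) <|
  cons_ok (fk_spec _ _ _ f81) <|
  cons_ok (fk_spec _ _ _ f82) <|
  cons_ok (fk_spec _ _ _ f89) <|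
  cons_ok (fk_spec _ _ _ f91) <|
  cons_ok (fk_spec _ _ _ f92) <|
  cons_ok (fk_spec _ _ _ f99) <|
  cons_ok (fk_spec _ _ _ f109) <|
  cons_ok (fk_spec _ _ _ f119) <|
  cons_ok (fk_spec _ _ _ f121) <|
  cons_ok (fk_spec _ _ _ f122) <|
  cons_ok (fk_spec _ _ _ f126) <|
  cons_ok (fk_spec _ _ _ f129) <|
  cons_ok (fk_spec _ _ _ f132) <|
  cons_ok (fk_spec _ _ _ f134) <|
  cons_ok (fk_spec _ _ _ f148) <|
  cons_ok (fk_spec _ _ _ f151) <|
  cons_ok (fk_spec _ _ _ f153) <|
  cons_ok (fk_spec _ _ _ f156) <|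
  cons_ok (fk_spec _ _ _ f160) <|
  cons_ok (fk_spec _ _ _ f162) <|
  cons_ok (fk_spec _ _ _ f174) <|
  cons_ok (fk_spec _ _ _ f189) <|
  cons_ok (fk_spec _ _ _ f191) <|
  cons_ok (fk_spec _ _ _ f193) <|
  cons_ok (fk_spec _ _ _ f198) <|
  cons_ok (fk_spec _ _ _ f202) <|
  cons_ok (fk_spec _ _ _ f227) <|
  nil_ok 4722

theorem rng_1 : ∀ k, 1 ≤ k → k < 228 → ¬ (num 4722 k).Prime :=
  range_of 4722 1 228 [65537, 30403, 1021, 41, 61, 13159, 1077161, 0, 19661, 23, 199, 1237, 0, 61, 593, 0, 7, 11, 2543, 11527, 1543, 2221, 211, 11, 0, 131, 1783, 0, 11, 11, 5, 7303651, 47, 19, 149, 25395817, 0, 17, 983, 33487, 47, 1607, 26480191, 113, 41, 11, 37649, 279211, 13, 89, 29, 7, 0, 461, 16811, 0, 53, 37, 29, 23, 0, 4531789, 0, 1117, 23, 47, 421, 5531, 2131, 19, 5, 0, 7, 11, 97, 149, 37, 0, 11, 0, 0, 0, 6337, 11, 127, 1711153, 443, 43, 0, 2521, 0, 0, 29, 11, 103, 2503, 20056973, 8291, 0, 13009, 1931, 1723, 1987, 937, 461, 11, 19, 31, 0, 641, 2903, 2221, 79, 32971, 83, 11, 331, 282059, 0, 3701, 0,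 0, 11, 107, 1723, 0, 11, 281, 0, 14033, 5, 0, 19777, 0, 459293, 307, 13903, 157, 4153, 211, 19, 367, 23, 797, 103, 2861, 409, 0, 61, 163061, 0, 23, 0, 29, 17, 0, 7, 23, 327347, 0, 43, 0, 223, 179, 11833, 2777, 149759, 378793, 709, 47, 1794523, 2887, 11, 0, 1204219, 31, 463, 23, 19, 1123, 21313, 26849, 1201, 11, 857, 3169, 353, 9173, 0, 59, 0, 179623, 0, 193, 1171, 15817, 10361453, 0, 7, 313, 83, 0, 53, 347, 13, 9416423, 39070523, 269, 29, 131, 11, 127037, 31, 3389, 223, 42649, 11, 13, 563, 971, 1613, 89, 211, 23, 17, 45641, 0] _ (by decide +kernel) (by decide +kernel) fer_1 (by decide +kernel)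

end Pool.Agent.X33.Z4722
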